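import Mathlib

set_option autoImplicit false

/-! Strongly connected closed pseudomanifolds, as families of `k`-sets. -/

namespace Pool.Agent.Helper490_Sph

open Finset

variable {n k : ℕ}

/-- `H` is (the set of facets of) a strongly connected closed pseudomanifold of dimension
`k - 1`: a nonempty family of `k`-sets such that every `(k-1)`-set is in `0` or `2` members, and
every nonempty subfamily meeting each `(k-1)`-set an even number of times is everything. -/
structure CPM (k : ℕ) (H : Finset (Finset (Fin n))) : Prop where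
  card : ∀ e ∈ H, e.card = k
  ne : H.Nonempty
  two : ∀ S : Finset (Fin n), S.card + 1 = k → (∃ e ∈ H, S ⊆ e) →
    (H.filter (fun e => S ⊆ e)).card = 2
  conn : ∀ Z : Finset (Finset (Fin n)), Z ⊆ H → Z.Nonempty →
    (∀ S : Finset (Fin n), S.card + 1 = k → Even (Z.filter (fun e => S ⊆ e)).card) → Z = H

/-- number of members of `P` containing `g` without `x` -/
def dg (P : Finset (Finset (Fin n))) (g : Finset (Fin n)) (x : Fin n) : ℕ :=
  (P.filter (fun f => g.erase x ⊆ f)).card

/-- a proper nonempty part has a boundary ridge -/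
theorem CPM.exists_ridge {H : Finset (Finset (Fin n))} (h : CPM k H)
    (Z : Finset (Finset (Fin n))) (hZ : Z ⊆ H) (hne : Z.Nonempty) (hZH : Z ≠ H) :
    ∃ S : Finset (Fin n), S.card + 1 = k ∧ ∃ f ∈ Z, ∃ f' ∈ H, f' ∉ Z ∧ S ⊆ f ∧ S ⊆ f' := by
  by_contra hcon
  push Not at hcon
  apply hZH
  apply h.conn Z hZ hne
  intro S hS
  by_cases he : (Z.filter (fun e => S ⊆ e)).Nonempty
  · obtain ⟨f, hf⟩ := he
    rw [Finset.mem_filter] at hf
    have h2 := h.two S hS ⟨f, hZ hf.1, hf.2⟩
    have h3 : Z.filter (fun e => S ⊆ e) = H.filter (fun e => S ⊆ e) := by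
      ext e
      rw [Finset.mem_filter, Finset.mem_filter]
      constructor
      · rintro ⟨h3, h4⟩
        exact ⟨hZ h3, h4⟩
      · rintro ⟨h3, h4⟩
        refine ⟨?_, h4⟩
        by_contra h5
        exact hcon S hS f hf.1 e h3 h5 hf.2 h4
    rw [h3, h2]
    exact even_two
  · rw [Finset.not_nonempty_iff_eq_empty] at he
    rw [he]
    simp

/-- a spanning pseudomanifold has many facets -/
theorem CPM.size {H : Finset (Finset (Fin n))} (h : CPM k H)
    (hcov : ∀ v : Fin n, ∃ e ∈ H, v ∈ e) : n + 1 ≤ k + H.card := by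
  classical
  let 𝒵 : Finset (Finset (Finset (Fin n))) :=
    H.powerset.filter (fun Z => Z.Nonempty ∧ (Z.biUnion id).card + 1 ≤ k + Z.card)
  obtain ⟨f0, hf0⟩ := h.ne
  have h𝒵 : 𝒵.Nonempty := by
    refine ⟨{f0}, ?_⟩
    simp only [𝒵, Finset.mem_filter, Finset.mem_powerset, Finset.singleton_subset_iff,
      Finset.singleton_nonempty, true_and, Finset.singleton_biUnion, id, Finset.card_singleton]
    exact ⟨hf0, by rw [h.card f0 hf0]⟩
  obtain ⟨Z, hZ, hmax⟩ := Finset.exists_max_image 𝒵 Finset.card h𝒵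
  simp only [𝒵, Finset.mem_filter, Finset.mem_powerset] at hZ
  by_cases hZH : Z = H
  · have h1 : H.biUnion id = Finset.univ := by
      ext v
      simp only [Finset.mem_biUnion, Finset.mem_univ, iff_true, id]
      exact hcov v
    have h2 := hZ.2.2
    rw [hZH, h1, Finset.card_univ, Fintype.card_fin] at h2
    exact h2
  · exfalso
    obtain ⟨S, hS, f, hf, f', hf', hf'Z, hSf, hSf'⟩ := h.exists_ridge Z hZ.1 hZ.2.1 hZH
    have hle := hmax (insert f' Z) (by
      simp only [𝒵, Finset.mem_filter, Finset.mem_powerset]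
      refine ⟨Finset.insert_subset hf' hZ.1, Finset.insert_nonempty _ _, ?_⟩
      rw [Finset.card_insert_of_notMem hf'Z, Finset.biUnion_insert]
      have h3 : (id f' ∪ Z.biUnion id).card ≤ (Z.biUnion id).card + 1 := by
        have h4 : S ⊆ Z.biUnion id := fun x hx => Finset.mem_biUnion.2 ⟨f, hf, hSf hx⟩
        have h5 : id f' ∪ Z.biUnion id = (f' \ S) ∪ Z.biUnion id := by
          ext x
          simp only [id, Finset.mem_union, Finset.mem_sdiff]
          constructor
          · rintro (hx | hx)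
            · by_cases hxS : x ∈ S
              · exact Or.inr (h4 hxS)
              · exact Or.inl ⟨hx, hxS⟩
            · exact Or.inr hx
          · rintro (hx | hx)
            · exact Or.inl hx.1
            · exact Or.inr hx
        rw [h5]
        refine (Finset.card_union_le _ _).trans ?_
        rw [Finset.card_sdiff_of_subset hSf', h.card f' hf']
        omega
      omega)
    rw [Finset.card_insert_of_notMem hf'Z] at hle
    omega

/-! ### Opposite facets -/

theorem CPM.opp_exists {H : Finset (Finset (Fin n))} (h : CPM k H) (f : Finset (Fin n))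
    (hf : f ∈ H) (x : Fin n) (hx : x ∈ f) :
    ∃ g ∈ H, g ≠ f ∧ f.erase x ⊆ g ∧ H.filter (fun e => f.erase x ⊆ e) = {f, g} := by
  have hc : (f.erase x).card + 1 = k := by
    rw [Finset.card_erase_of_mem hx, ← h.card f hf]
    have := Finset.card_pos.2 ⟨x, hx⟩
    omega
  have h2 := h.two (f.erase x) hc ⟨f, hf, Finset.erase_subset _ _⟩
  obtain ⟨a, b, hab, habs⟩ := Finset.card_eq_two.1 h2
  have hfm : f ∈ H.filter (fun e => f.erase x ⊆ e) :=
    Finset.mem_filter.2 ⟨hf, Finset.erase_subset _ _⟩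
  have ham : a ∈ H.filter (fun e => f.erase x ⊆ e) := by rw [habs]; simp
  have hbm : b ∈ H.filter (fun e => f.erase x ⊆ e) := by rw [habs]; simp
  rw [Finset.mem_filter] at ham hbm
  rw [habs] at hfm
  simp only [Finset.mem_insert, Finset.mem_singleton] at hfm
  rcases hfm with rfl | rfl
  · exact ⟨b, hbm.1, hab.symm, hbm.2, habs⟩
  · exact ⟨a, ham.1, hab, ham.2, by rw [habs, Finset.pair_comm]⟩

open Classical in
/-- the facet on the other side of the ridge `f.erase x` -/
noncomputable def opp (H : Finset (Finset (Fin n))) (f : Finset (Fin n)) (x : Fin n) :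
    Finset (Fin n) :=
  if h : ∃ g ∈ H, g ≠ f ∧ f.erase x ⊆ g ∧ H.filter (fun e => f.erase x ⊆ e) = {f, g}
    then h.choose else ∅

theorem CPM.opp_spec {H : Finset (Finset (Fin n))} (h : CPM k H) (f : Finset (Fin n))
    (hf : f ∈ H) (x : Fin n) (hx : x ∈ f) :
    opp H f x ∈ H ∧ opp H f x ≠ f ∧ f.erase x ⊆ opp H f x ∧
      H.filter (fun e => f.erase x ⊆ e) = {f, opp H f x} := by
  have h1 := h.opp_exists f hf x hx
  unfold opp
  rw [dif_pos h1]
  exact h1.choose_spec

/-- two `k`-sets, one containing two different ridges of the other, are equal -/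
theorem eq_of_two_ridges (g e : Finset (Fin n)) (hg : g.card = k) (he : e.card = k)
    (x y : Fin n) (hxy : x ≠ y) (hx : g.erase x ⊆ e) (hy : g.erase y ⊆ e) : g = e := by
  have : g ⊆ e := by
    intro z hz
    by_cases h : z = x
    · exact hy (Finset.mem_erase.2 ⟨by rw [h]; exact hxy, hz⟩)
    · exact hx (Finset.mem_erase.2 ⟨h, hz⟩)
  exact Finset.eq_of_subset_of_card_le this (by omega)

theorem CPM.opp_inj {H : Finset (Finset (Fin n))} (h : CPM k H) (f : Finset (Fin n))
    (hf : f ∈ H) : ∀ x ∈ f, ∀ y ∈ f, opp H f x = opp H f y → x = y := by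
  intro x hx y hy hxy
  by_contra hne
  obtain ⟨h1, h2, h3, _⟩ := h.opp_spec f hf x hx
  obtain ⟨_, _, h4, _⟩ := h.opp_spec f hf y hy
  rw [← hxy] at h4
  exact h2 (eq_of_two_ridges f (opp H f x) (h.card f hf) (h.card _ h1) x y hne h3 h4).symm

/-! ### Tours -/

/-- one step of a coded walk: three swaps -/
abbrev Mv (n : ℕ) : Type := (Fin n × Fin n) × (Fin n × Fin n) × (Fin n × Fin n)

/-- swap -/
def sw (s : Finset (Fin n)) (p : Fin n × Fin n) : Finset (Fin n) := insert p.2 (s.erase p.1)

/-- three swaps -/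
def st (s : Finset (Fin n)) (a : Mv n) : Finset (Fin n) := sw (sw (sw s a.1) a.2.1) a.2.2

/-- end of a coded walk -/
def run (s : Finset (Fin n)) (l : List (Mv n)) : Finset (Fin n) := l.foldl st s

/-- the set of positions of a coded walk -/
def pos : Finset (Fin n) → List (Mv n) → Finset (Finset (Fin n))
  | s, [] => {s}
  | s, a :: l => insert s (pos (st s a) l)

theorem run_append (s : Finset (Fin n)) (l l' : List (Mv n)) :
    run s (l ++ l') = run (run s l) l' := by
  unfold run
  rw [List.foldl_append]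

theorem start_mem_pos (s : Finset (Fin n)) (l : List (Mv n)) : s ∈ pos s l := by
  cases l <;> simp [pos]

theorem pos_append (s : Finset (Fin n)) (l l' : List (Mv n)) :
    pos s (l ++ l') = pos s l ∪ pos (run s l) l' := by
  induction l generalizing s with
  | nil =>
    simp only [List.nil_append, pos, run, List.foldl_nil]
    rw [Finset.union_eq_right.2]
    rw [Finset.singleton_subset_iff]
    exact start_mem_pos s l'
  | cons a l ih =>
    simp only [List.cons_append, pos, ih]
    rw [Finset.insert_union]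
    rfl

theorem run_mem_pos (s : Finset (Fin n)) (l : List (Mv n)) : run s l ∈ pos s l := by
  have := pos_append s l []
  rw [List.append_nil] at this
  rw [this]
  exact Finset.mem_union_right _ (start_mem_pos _ _)

theorem exists_split (s : Finset (Fin n)) (l : List (Mv n)) (z : Finset (Fin n))
    (hz : z ∈ pos s l) : ∃ l1 l2, l = l1 ++ l2 ∧ run s l1 = z := by
  induction l generalizing s with
  | nil =>
    simp only [pos, Finset.mem_singleton] at hz
    exact ⟨[], [], rfl, by simp [run, hz]⟩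
  | cons a l ih =>
    simp only [pos, Finset.mem_insert] at hz
    rcases hz with rfl | hz
    · exact ⟨[], a :: l, rfl, rfl⟩
    · obtain ⟨l1, l2, h1, h2⟩ := ih (st s a) hz
      exact ⟨a :: l1, l2, by rw [h1]; rfl, h2⟩

theorem sw_self (s : Finset (Fin n)) (x : Fin n) (hx : x ∈ s) : sw s (x, x) = s := by
  unfold sw
  exact Finset.insert_erase hx

theorem exists_sw (s t : Finset (Fin n)) (hs : s.card = k) (ht : t.card = k) (hk : 0 < k) :
    ∃ p, (sw s p).card = k ∧ ((sw s p) \ t).card ≤ (s \ t).card - 1 := by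
  by_cases h : s = t
  · obtain ⟨x, hx⟩ : s.Nonempty := Finset.card_pos.1 (by omega)
    refine ⟨(x, x), ?_, ?_⟩
    · rw [sw_self s x hx]; exact hs
    · rw [sw_self s x hx, h]; simp
  · have h1 : (s \ t).Nonempty := by
      rw [Finset.nonempty_iff_ne_empty]
      intro h2
      rw [Finset.sdiff_eq_empty_iff_subset] at h2
      exact h (Finset.eq_of_subset_of_card_le h2 (by omega))
    have h2 : (t \ s).Nonempty := by
      rw [Finset.nonempty_iff_ne_empty]
      intro h2
      rw [Finset.sdiff_eq_empty_iff_subset] at h2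
      exact h (Finset.eq_of_subset_of_card_le h2 (by omega)).symm
    obtain ⟨x, hx⟩ := h1
    obtain ⟨y, hy⟩ := h2
    have hx' := Finset.mem_sdiff.1 hx
    have hy' := Finset.mem_sdiff.1 hy
    refine ⟨(x, y), ?_, ?_⟩
    · unfold sw
      rw [Finset.card_insert_of_notMem, Finset.card_erase_of_mem hx'.1]
      · omega
      · intro h3; exact hy'.2 (Finset.mem_of_mem_erase h3)
    · have h3 : (sw s (x, y)) \ t = (s \ t).erase x := by
        ext z
        simp only [sw, Finset.mem_sdiff, Finset.mem_insert, Finset.mem_erase]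
        constructor
        · rintro ⟨h4 | h4, h5⟩
          · exact absurd (h4 ▸ hy'.1) h5
          · exact ⟨h4.1, h4.2, h5⟩
        · rintro ⟨h4, h5, h6⟩
          exact ⟨Or.inr ⟨h4, h5⟩, h6⟩
      rw [h3, Finset.card_erase_of_mem hx]

theorem exists_st (s t : Finset (Fin n)) (hs : s.card = k) (ht : t.card = k) (hk : 0 < k)
    (hd : (s \ t).card ≤ 3) : ∃ a : Mv n, st s a = t := by
  obtain ⟨p1, h1, h1'⟩ := exists_sw s t hs ht hk
  obtain ⟨p2, h2, h2'⟩ := exists_sw (sw s p1) t h1 ht hk
  obtain ⟨p3, h3, h3'⟩ := exists_sw (sw (sw s p1) p2) t h2 ht hk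
  refine ⟨(p1, p2, p3), ?_⟩
  have h4 : ((st s (p1, p2, p3)) \ t).card = 0 := by
    show ((sw (sw (sw s p1) p2) p3) \ t).card = 0
    omega
  rw [Finset.card_eq_zero, Finset.sdiff_eq_empty_iff_subset] at h4
  exact Finset.eq_of_subset_of_card_le h4 (by
    show t.card ≤ (sw (sw (sw s p1) p2) p3).card
    omega)

/-- a family of `k`-sets that is connected for the relation `|s \ t| ≤ 3` is the set of
positions of a short coded walk -/
theorem exists_tour (P : Finset (Finset (Fin n))) (hP : ∀ e ∈ P, e.card = k) (hk : 0 < k)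
    (hne : P.Nonempty)
    (hconn : ∀ Z : Finset (Finset (Fin n)), Z ⊆ P → Z.Nonempty → Z ≠ P →
      ∃ z ∈ Z, ∃ p ∈ P, p ∉ Z ∧ (z \ p).card ≤ 3 ∧ (p \ z).card ≤ 3)
    (m : ℕ) (hm : P.card ≤ m) :
    ∃ s ∈ P, ∃ l : List (Mv n), l.length = 2 * m ∧ pos s l = P := by
  classical
  obtain ⟨s, hs⟩ := hne
  have key : ∀ j : ℕ, j + 1 ≤ P.card → ∃ Z : Finset (Finset (Fin n)), Z ⊆ P ∧ Z.card = j + 1 ∧
      ∃ l : List (Mv n), l.length = 2 * j ∧ pos s l = Z := by
    intro j
    induction j with
    | zero =>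
      intro _
      exact ⟨{s}, by simpa using hs, by simp, [], by simp, by simp [pos]⟩
    | succ j ih =>
      intro hj
      obtain ⟨Z, hZ, hZc, l, hl, hlZ⟩ := ih (by omega)
      obtain ⟨z, hz, p, hp, hpZ, h1, h2⟩ := hconn Z hZ (Finset.card_pos.1 (by omega))
        (fun h => by rw [h] at hZc; omega)
      rw [← hlZ] at hz
      obtain ⟨l1, l2, hl12, hrun⟩ := exists_split s l z hz
      have hzP : z ∈ P := hZ (hlZ ▸ hz)
      obtain ⟨a, ha⟩ := exists_st z p (hP z hzP) (hP p hp) hk h1
      obtain ⟨b, hb⟩ := exists_st p z (hP p hp) (hP z hzP) hk h2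
      refine ⟨insert p Z, Finset.insert_subset hp hZ, ?_, l1 ++ (a :: b :: l2), ?_, ?_⟩
      · rw [Finset.card_insert_of_notMem hpZ, hZc]
      · rw [hl12] at hl
        simp only [List.length_append, List.length_cons] at hl ⊢
        omega
      · rw [pos_append, hrun]
        simp only [pos, ha, hb]
        rw [hl12, pos_append, hrun] at hlZ
        rw [← hlZ]
        ext e
        simp only [Finset.mem_union, Finset.mem_insert]
        have h3 := start_mem_pos z l2
        constructor
        · rintro (h | h | h | h)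
          · exact Or.inr (Or.inl h)
          · rw [h]; exact Or.inr (Or.inr h3)
          · exact Or.inl h
          · exact Or.inr (Or.inr h)
        · rintro (h | h | h)
          · exact Or.inr (Or.inr (Or.inl h))
          · exact Or.inl h
          · exact Or.inr (Or.inr (Or.inr h))
  have hPc : 0 < P.card := Finset.card_pos.2 ⟨s, hs⟩
  obtain ⟨Z, hZ, hZc, l, hl, hlZ⟩ := key (P.card - 1) (by omega)
  have hZP : Z = P := Finset.eq_of_subset_of_card_le hZ (by omega)
  -- padding
  obtain ⟨x, hx⟩ : (run s l).Nonempty := by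
    have h1 : run s l ∈ P := by
      rw [← hZP, ← hlZ]
      exact run_mem_pos s l
    exact Finset.card_pos.1 (by rw [hP _ h1]; exact hk)
  have hst : st (run s l) ((x, x), (x, x), (x, x)) = run s l := by
    unfold st
    simp only [sw_self _ x hx]
  have hpad : ∀ j : ℕ, pos (run s l) (List.replicate j ((x, x), (x, x), (x, x))) = {run s l} := by
    intro j
    induction j with
    | zero => simp [pos]
    | succ j ih =>
      rw [List.replicate_succ]
      simp only [pos, hst, ih]
      simp
  refine ⟨s, hs, l ++ List.replicate (2 * m - l.length) ((x, x), (x, x), (x, x)), ?_, ?_⟩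
  · rw [List.length_append, List.length_replicate]
    omega
  · rw [pos_append, hpad, hlZ, hZP, Finset.union_eq_left.2]
    rw [Finset.singleton_subset_iff, ← hZP, ← hlZ]
    exact run_mem_pos s l

/-- a dominating subfamily of a strongly connected family is connected for `|s \ t| ≤ 3` -/
theorem CPM.dom_conn {H : Finset (Finset (Fin n))} (h : CPM k H)
    (P : Finset (Finset (Fin n))) (hPH : P ⊆ H)
    (hdom : ∀ f ∈ H, ∃ p ∈ P, (f \ p).card ≤ 1 ∧ (p \ f).card ≤ 1)
    (Z : Finset (Finset (Fin n))) (hZ : Z ⊆ P) (hne : Z.Nonempty) (hZP : Z ≠ P) :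
    ∃ z ∈ Z, ∃ p ∈ P, p ∉ Z ∧ (z \ p).card ≤ 3 ∧ (p \ z).card ≤ 3 := by
  classical
  have tri : ∀ a b c : Finset (Fin n), (a \ c).card ≤ (a \ b).card + (b \ c).card := by
    intro a b c
    refine (Finset.card_le_card (t := (a \ b) ∪ (b \ c)) ?_).trans (Finset.card_union_le _ _)
    intro x hx
    simp only [Finset.mem_union, Finset.mem_sdiff] at hx ⊢
    by_cases hb : x ∈ b
    · exact Or.inr ⟨hb, hx.2⟩
    · exact Or.inl ⟨hx.1, hb⟩
  let A : Finset (Finset (Fin n)) :=
    H.filter (fun f => ∃ p ∈ Z, (f \ p).card ≤ 1 ∧ (p \ f).card ≤ 1)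
  let B : Finset (Finset (Fin n)) :=
    H.filter (fun f => ∃ p ∈ P \ Z, (f \ p).card ≤ 1 ∧ (p \ f).card ≤ 1)
  have hcov : ∀ f ∈ H, f ∈ A ∨ f ∈ B := by
    intro f hf
    obtain ⟨p, hp, hp'⟩ := hdom f hf
    by_cases hpZ : p ∈ Z
    · exact Or.inl (Finset.mem_filter.2 ⟨hf, p, hpZ, hp'⟩)
    · exact Or.inr (Finset.mem_filter.2 ⟨hf, p, Finset.mem_sdiff.2 ⟨hp, hpZ⟩, hp'⟩)
  by_cases hAB : ∃ f ∈ A, f ∈ B
  · obtain ⟨f, hfA, hfB⟩ := hAB
    obtain ⟨_, z, hz, hz1, hz2⟩ := Finset.mem_filter.1 hfA
    obtain ⟨_, p, hp, hp1, hp2⟩ := Finset.mem_filter.1 hfB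
    rw [Finset.mem_sdiff] at hp
    refine ⟨z, hz, p, hp.1, hp.2, ?_, ?_⟩
    · have := tri z f p
      omega
    · have := tri p f z
      omega
  · push Not at hAB
    obtain ⟨z0, hz0⟩ := hne
    have hz0A : z0 ∈ A := Finset.mem_filter.2 ⟨hPH (hZ hz0), z0, hz0, by simp, by simp⟩
    obtain ⟨p0, hp0, hp0Z⟩ : ∃ p0 ∈ P, p0 ∉ Z := by
      by_contra hcon
      push Not at hcon
      exact hZP (Finset.Subset.antisymm hZ hcon)
    have hp0B : p0 ∈ B := Finset.mem_filter.2 ⟨hPH hp0, p0, Finset.mem_sdiff.2 ⟨hp0, hp0Z⟩,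
      by simp, by simp⟩
    have hAH : A ≠ H := by
      intro hAH
      exact hAB p0 (by rw [hAH]; exact hPH hp0) hp0B
    obtain ⟨S, hS, f, hf, f', hf', hf'A, hSf, hSf'⟩ :=
      h.exists_ridge A (Finset.filter_subset _ _) ⟨z0, hz0A⟩ hAH
    have hf'B : f' ∈ B := (hcov f' hf').resolve_left hf'A
    have hfH : f ∈ H := (Finset.mem_filter.1 hf).1
    obtain ⟨_, z, hz, hz1, hz2⟩ := Finset.mem_filter.1 hf
    obtain ⟨_, p, hp, hp1, hp2⟩ := Finset.mem_filter.1 hf'B
    rw [Finset.mem_sdiff] at hp
    have h1 : (f \ f').card ≤ 1 := by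
      have : f \ f' ⊆ f \ S := Finset.sdiff_subset_sdiff subset_rfl hSf'
      refine (Finset.card_le_card this).trans ?_
      rw [Finset.card_sdiff_of_subset hSf, h.card f hfH]
      omega
    have h2 : (f' \ f).card ≤ 1 := by
      have : f' \ f ⊆ f' \ S := Finset.sdiff_subset_sdiff subset_rfl hSf
      refine (Finset.card_le_card this).trans ?_
      rw [Finset.card_sdiff_of_subset hSf', h.card f' hf']
      omega
    refine ⟨z, hz, p, hp.1, hp.2, ?_, ?_⟩
    · have h3 := tri z f p
      have h4 := tri f f' p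
      omega
    · have h3 := tri p f' z
      have h4 := tri f' f z
      omega

end Pool.Agent.Helper490_Sph
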