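import Mathlib

set_option autoImplicit false

/-! Averages over all colourings of a finite set with `q` colours. -/

namespace Pool.Agent.Helper490_Sph

open Finset

variable {α : Type} [Fintype α] [DecidableEq α] {q : ℕ}

/-- the average of `Φ` over all maps `α → Fin q` -/
noncomputable def Ex (Φ : (α → Fin q) → ℝ) : ℝ :=
  (∑ c : α → Fin q, Φ c) / (q : ℝ) ^ (Fintype.card α)

theorem card_col (α : Type) [Fintype α] [DecidableEq α] (q : ℕ) :
    ((Finset.univ : Finset (α → Fin q)).card : ℝ) = (q : ℝ) ^ (Fintype.card α) := by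
  rw [Finset.card_univ, Fintype.card_fun, Fintype.card_fin]
  push_cast
  rfl

theorem pow_pos_col (hq : 0 < q) : (0 : ℝ) < (q : ℝ) ^ (Fintype.card α) :=
  pow_pos (by exact_mod_cast hq) _

theorem Ex_const (hq : 0 < q) (r : ℝ) : Ex (fun _ : α → Fin q => r) = r := by
  unfold Ex
  rw [Finset.sum_const, nsmul_eq_mul, card_col]
  have := pow_pos_col (α := α) hq
  field_simp

theorem Ex_add (Φ Ψ : (α → Fin q) → ℝ) : Ex (fun c => Φ c + Ψ c) = Ex Φ + Ex Ψ := by
  unfold Ex
  rw [Finset.sum_add_distrib, add_div]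

theorem Ex_sub (Φ Ψ : (α → Fin q) → ℝ) : Ex (fun c => Φ c - Ψ c) = Ex Φ - Ex Ψ := by
  unfold Ex
  rw [Finset.sum_sub_distrib, sub_div]

theorem Ex_mul_left (r : ℝ) (Φ : (α → Fin q) → ℝ) : Ex (fun c => r * Φ c) = r * Ex Φ := by
  unfold Ex
  rw [← Finset.mul_sum, mul_div_assoc]

theorem Ex_sum {β : Type} (R : Finset β) (Φ : β → (α → Fin q) → ℝ) :
    Ex (fun c => ∑ x ∈ R, Φ x c) = ∑ x ∈ R, Ex (Φ x) := by
  unfold Ex
  rw [Finset.sum_comm, Finset.sum_div]

theorem Ex_mono {Φ Ψ : (α → Fin q) → ℝ} (h : ∀ c, Φ c ≤ Ψ c) : Ex Φ ≤ Ex Ψ := by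
  unfold Ex
  apply div_le_div_of_nonneg_right
  · exact Finset.sum_le_sum fun c _ => h c
  · positivity

theorem Ex_nonneg {Φ : (α → Fin q) → ℝ} (h : ∀ c, 0 ≤ Φ c) : 0 ≤ Ex Φ := by
  unfold Ex
  apply div_nonneg
  · exact Finset.sum_nonneg fun c _ => h c
  · positivity

theorem exists_lt_of_Ex_lt (hq : 0 < q) {Φ : (α → Fin q) → ℝ} {r : ℝ} (h : Ex Φ < r) :
    ∃ c, Φ c < r := by
  by_contra hcon
  push Not at hcon
  have h1 : Ex (fun _ : α → Fin q => r) ≤ Ex Φ := Ex_mono hcon
  rw [Ex_const hq] at h1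
  linarith

/-- mixing two colourings -/
def mix (A : Set α) [DecidablePred (· ∈ A)] (p : (α → Fin q) × (α → Fin q)) : α → Fin q :=
  fun i => if i ∈ A then p.1 i else p.2 i

/-- the involution of the proof of independence -/
def mixEquiv (A : Set α) [DecidablePred (· ∈ A)] :
    ((α → Fin q) × (α → Fin q)) ≃ ((α → Fin q) × (α → Fin q)) where
  toFun p := (mix A p, mix A (p.2, p.1))
  invFun p := (mix A p, mix A (p.2, p.1))
  left_inv p := by
    ext i <;> by_cases h : i ∈ A <;> simp [mix, h]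
  right_inv p := by
    ext i <;> by_cases h : i ∈ A <;> simp [mix, h]

/-- independence -/
theorem Ex_mul (hq : 0 < q) (Φ Ψ : (α → Fin q) → ℝ) (A B : Set α)
    (hA : DependsOn Φ A) (hB : DependsOn Ψ B) (hAB : Disjoint A B) :
    Ex (fun c => Φ c * Ψ c) = Ex Φ * Ex Ψ := by
  classical
  have h1 : ∑ p : (α → Fin q) × (α → Fin q), Φ p.1 * Ψ p.2 =
      (∑ c, Φ c) * (∑ c, Ψ c) := by
    rw [Fintype.sum_prod_type, Finset.sum_mul_sum]
  have h2 : ∀ p : (α → Fin q) × (α → Fin q), Φ p.1 * Ψ p.2 = Φ (mix A p) * Ψ (mix A p) := by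
    intro p
    have e1 : Φ p.1 = Φ (mix A p) := by
      apply hA
      intro i hi
      simp [mix, hi]
    have e2 : Ψ p.2 = Ψ (mix A p) := by
      apply hB
      intro i hi
      have : i ∉ A := fun h => Set.disjoint_left.1 hAB h hi
      simp [mix, this]
    rw [e1, e2]
  have h3 : ∑ p : (α → Fin q) × (α → Fin q), Φ (mix A p) * Ψ (mix A p) =
      ∑ p : (α → Fin q) × (α → Fin q), Φ p.1 * Ψ p.1 := by
    rw [← Equiv.sum_comp (mixEquiv A) (fun p : (α → Fin q) × (α → Fin q) => Φ p.1 * Ψ p.1)]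
    rfl
  have h4 : ∑ p : (α → Fin q) × (α → Fin q), Φ p.1 * Ψ p.1 =
      (q : ℝ) ^ (Fintype.card α) * ∑ c, Φ c * Ψ c := by
    rw [Fintype.sum_prod_type]
    simp only [Finset.sum_const, nsmul_eq_mul, card_col]
    rw [← Finset.mul_sum]
  have h5 : (∑ c, Φ c) * (∑ c, Ψ c) = (q : ℝ) ^ (Fintype.card α) * ∑ c, Φ c * Ψ c := by
    rw [← h1, ← h4, ← h3]
    exact Finset.sum_congr rfl fun p _ => h2 p
  unfold Ex
  have hpos := pow_pos_col (α := α) hq
  rw [div_mul_div_comm, h5]
  field_simp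

theorem dependsOn_prod {β : Type} (R : Finset β) (φ : β → (α → Fin q) → ℝ) (A : β → Set α)
    (hdep : ∀ x ∈ R, DependsOn (φ x) (A x)) :
    DependsOn (fun c => ∏ x ∈ R, φ x c) (⋃ x ∈ R, A x) := by
  intro c c' h
  refine Finset.prod_congr rfl fun x hx => ?_
  apply hdep x hx
  intro i hi
  exact h i (Set.mem_biUnion hx hi)

/-- independence for finitely many factors -/
theorem Ex_prod (hq : 0 < q) {β : Type} (R : Finset β) (φ : β → (α → Fin q) → ℝ) (A : β → Set α)
    (hdep : ∀ x ∈ R, DependsOn (φ x) (A x))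
    (hdisj : ∀ x ∈ R, ∀ y ∈ R, x ≠ y → Disjoint (A x) (A y)) :
    Ex (fun c => ∏ x ∈ R, φ x c) = ∏ x ∈ R, Ex (φ x) := by
  classical
  induction R using Finset.induction_on with
  | empty => simp [Ex_const hq]
  | insert a R ha ih =>
    rw [Finset.prod_insert ha, ← ih (fun x hx => hdep x (Finset.mem_insert_of_mem hx))
      (fun x hx y hy hxy => hdisj x (Finset.mem_insert_of_mem hx) y
        (Finset.mem_insert_of_mem hy) hxy)]
    rw [← Ex_mul hq (φ a) (fun c => ∏ x ∈ R, φ x c) (A a) (⋃ x ∈ R, A x)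
      (hdep a (Finset.mem_insert_self a R))
      (dependsOn_prod R φ A (fun x hx => hdep x (Finset.mem_insert_of_mem hx)))]
    · congr 1
      funext c
      rw [Finset.prod_insert ha]
    · rw [Set.disjoint_iUnion₂_right]
      intro x hx
      exact hdisj a (Finset.mem_insert_self a R) x (Finset.mem_insert_of_mem hx)
        (fun h => ha (h ▸ hx))

/-- the average of a function of one coordinate -/
theorem Ex_coord (hq : 0 < q) (a : α) (w : Fin q → ℝ) :
    Ex (fun c : α → Fin q => w (c a)) = (∑ j, w j) / q := by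
  classical
  have h1 : ∑ c : α → Fin q, w (c a) = ∏ i : α, ∑ j : Fin q, (if i = a then w j else 1) := by
    rw [Finset.prod_univ_sum, Fintype.piFinset_univ]
    refine Finset.sum_congr rfl fun c _ => ?_
    rw [Finset.prod_ite_eq' Finset.univ a (fun i => w (c i))]
    simp
  have h2 : ∏ i : α, ∑ j : Fin q, (if i = a then w j else 1) =
      (∑ j, w j) * (q : ℝ) ^ (Fintype.card α - 1) := by
    rw [← Finset.mul_prod_erase Finset.univ _ (Finset.mem_univ a)]
    congr 1
    · simp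
    · rw [Finset.prod_congr rfl (g := fun _ => (q : ℝ))]
      · rw [Finset.prod_const, Finset.card_erase_of_mem (Finset.mem_univ a), Finset.card_univ]
      · intro i hi
        have : i ≠ a := (Finset.mem_erase.1 hi).1
        simp [this]
  have hc : 0 < Fintype.card α := Fintype.card_pos_iff.2 ⟨a⟩
  have hqR : (0 : ℝ) < q := by exact_mod_cast hq
  unfold Ex
  rw [h1, h2]
  obtain ⟨m, hm⟩ : ∃ m, Fintype.card α = m + 1 := ⟨Fintype.card α - 1, by omega⟩
  rw [hm, Nat.add_sub_cancel, pow_succ]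
  field_simp

theorem dependsOn_coord (a : α) (w : Fin q → ℝ) :
    DependsOn (fun c : α → Fin q => w (c a)) {a} := by
  intro c c' h
  have := h a (Set.mem_singleton a)
  simp only [this]

/-- product of functions of distinct coordinates with the same average -/
theorem Ex_prod_coord (hq : 0 < q) {β : Type} (R : Finset β) (a : β → α)
    (ha : ∀ x ∈ R, ∀ y ∈ R, a x = a y → x = y) (w : Fin q → ℝ) :
    Ex (fun c : α → Fin q => ∏ x ∈ R, w (c (a x))) = ((∑ j, w j) / q) ^ R.card := by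
  rw [Ex_prod hq R (fun x c => w (c (a x))) (fun x => {a x})
    (fun x _ => dependsOn_coord (a x) w)]
  · rw [Finset.prod_congr rfl (fun x _ => Ex_coord hq (a x) w), Finset.prod_const]
  · intro x hx y hy hxy
    rw [Set.disjoint_singleton]
    exact fun h => hxy (ha x hx y hy h)

end Pool.Agent.Helper490_Sph
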