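import Mathlib

set_option autoImplicit false

/-! Numerical estimates. -/

namespace Pool.Agent.Helper490_Sph

open Finset

theorem two_le_pow (a : ℕ) (ha : 0 < a) : (2 : ℝ) ≤ (1 + 1 / (a : ℝ)) ^ a := by
  have haR : (0 : ℝ) < a := by exact_mod_cast ha
  have h := one_add_mul_le_pow (a := 1 / (a : ℝ)) (by
    have : (0 : ℝ) < 1 / (a : ℝ) := by positivity
    linarith) a
  have h2 : 1 + (a : ℝ) * (1 / (a : ℝ)) = 2 := by
    field_simp
    norm_num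
  linarith

theorem pow_big (a b t : ℕ) (ha : 0 < a) (ht : t = a * b) :
    ((1 + 1 / (a : ℝ)) ^ t)⁻¹ ≤ (1 / 2) ^ b := by
  have h1 := two_le_pow a ha
  rw [ht, pow_mul]
  have h2 : (2 : ℝ) ^ b ≤ ((1 + 1 / (a : ℝ)) ^ a) ^ b :=
    pow_le_pow_left₀ (by norm_num) h1 b
  calc (((1 + 1 / (a : ℝ)) ^ a) ^ b)⁻¹ ≤ ((2 : ℝ) ^ b)⁻¹ :=
        inv_anti₀ (by positivity) h2
    _ = _ := by rw [one_div, inv_pow]

theorem pow_small (a b t : ℕ) (ha : 0 < a) (ht : t = a * b) :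
    (1 - 1 / (a : ℝ)) ^ t ≤ (1 / 2) ^ b := by
  have haR : (1 : ℝ) ≤ a := by exact_mod_cast ha
  have h0 : (0 : ℝ) ≤ 1 - 1 / (a : ℝ) := by
    have : 1 / (a : ℝ) ≤ 1 := by
      rw [div_le_one (by linarith)]
      exact haR
    linarith
  have hx : (0 : ℝ) < 1 / (a : ℝ) := by positivity
  have h1 : (1 - 1 / (a : ℝ)) ≤ 1 / (1 + 1 / (a : ℝ)) := by
    rw [le_div_iff₀ (by linarith)]
    nlinarith
  have h2 : (1 - 1 / (a : ℝ)) ^ a ≤ 1 / 2 := by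
    calc (1 - 1 / (a : ℝ)) ^ a ≤ (1 / (1 + 1 / (a : ℝ))) ^ a := pow_le_pow_left₀ h0 h1 a
      _ = 1 / (1 + 1 / (a : ℝ)) ^ a := by rw [div_pow, one_pow]
      _ ≤ 1 / 2 := one_div_le_one_div_of_le (by norm_num) (two_le_pow a ha)
  rw [ht, pow_mul]
  exact pow_le_pow_left₀ (pow_nonneg h0 a) h2 b

theorem half_pow_le (b : ℕ) (hb : 200 ≤ b) : (1 / 2 : ℝ) ^ b ≤ (1 / 2) ^ 200 :=
  pow_le_pow_of_le_one (by norm_num) (by norm_num) hb

/-- the numerical hypothesis of the certificate -/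
theorem num_cert (M k n τ : ℕ) (hM : M = 2 ^ 20) (hk : k = M ^ 4) (hn : n = 128 * k)
    (hτ : 4 * τ = M ^ 3) :
    1 / 4 + 64 * ((n : ℝ) ^ 2 * ((1 + 1 / (2 * (M : ℝ))) ^ τ)⁻¹ +
      (n : ℝ) ^ 2 * (1 - 1 / (M : ℝ)) ^ k + 2 ^ τ * (1 - 1 / (2 * (M : ℝ))) ^ k) < 1 := by
  have hnR : (n : ℝ) = 2 ^ 87 := by
    have : n = 2 ^ 87 := by rw [hn, hk, hM]; norm_num
    rw [this]; norm_num
  have hMpos : 0 < M := by rw [hM]; norm_num
  have h2M : (2 * (M : ℝ)) = ((2 * M : ℕ) : ℝ) := by push_cast; ring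
  obtain ⟨b1, hb1, hτ1⟩ : ∃ b, 200 ≤ b ∧ τ = (2 * M) * b := by
    refine ⟨2 ^ 37, by norm_num, ?_⟩
    have h1 : M ^ 3 = 2 ^ 60 := by rw [hM]; norm_num
    have h2 : (2 * M) * 2 ^ 37 = 2 ^ 58 := by rw [hM]; norm_num
    rw [h2]
    rw [h1] at hτ
    omega
  obtain ⟨b2, hb2, hk2⟩ : ∃ b, 200 ≤ b ∧ k = M * b := by
    refine ⟨M ^ 3, ?_, ?_⟩
    · rw [hM]; norm_num
    · rw [hk]; ring
  have hk3 : k = (2 * M) * (2 * τ) := by
    have : (2 * M) * (2 * τ) = M * (4 * τ) := by ring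
    rw [this, hτ, hk]
    ring
  have hτ200 : 200 ≤ τ := by
    rw [hτ1]
    calc 200 ≤ b1 := hb1
      _ ≤ 2 * M * b1 := Nat.le_mul_of_pos_left _ (by positivity)
  clear hτ hk hn hM
  have e1 : ((1 + 1 / (2 * (M : ℝ))) ^ τ)⁻¹ ≤ (1 / 2) ^ 200 := by
    rw [h2M]
    exact (pow_big (2 * M) b1 τ (by positivity) hτ1).trans (half_pow_le b1 hb1)
  have e2 : (1 - 1 / (M : ℝ)) ^ k ≤ (1 / 2) ^ 200 :=
    (pow_small M b2 k hMpos hk2).trans (half_pow_le b2 hb2)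
  have e3 : (2 : ℝ) ^ τ * (1 - 1 / (2 * (M : ℝ))) ^ k ≤ (1 / 2) ^ 200 := by
    have h1 : (1 - 1 / (2 * (M : ℝ))) ^ k ≤ (1 / 2) ^ (2 * τ) := by
      rw [h2M]
      exact pow_small (2 * M) (2 * τ) k (by positivity) hk3
    have h2 : (2 : ℝ) ^ τ * (1 / 2) ^ (2 * τ) = (1 / 2) ^ τ := by
      rw [two_mul, pow_add, ← mul_assoc, ← mul_pow]
      norm_num
    calc (2 : ℝ) ^ τ * (1 - 1 / (2 * (M : ℝ))) ^ k ≤ (2 : ℝ) ^ τ * (1 / 2) ^ (2 * τ) :=
          mul_le_mul_of_nonneg_left h1 (by positivity)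
      _ = (1 / 2) ^ τ := h2
      _ ≤ _ := half_pow_le τ hτ200
  have e4 : (n : ℝ) ^ 2 * ((1 + 1 / (2 * (M : ℝ))) ^ τ)⁻¹ ≤ (n : ℝ) ^ 2 * (1 / 2) ^ 200 :=
    mul_le_mul_of_nonneg_left e1 (by positivity)
  have e5 : (n : ℝ) ^ 2 * (1 - 1 / (M : ℝ)) ^ k ≤ (n : ℝ) ^ 2 * (1 / 2) ^ 200 :=
    mul_le_mul_of_nonneg_left e2 (by positivity)
  have e6 : 1 / 4 + 64 * ((n : ℝ) ^ 2 * (1 / 2) ^ 200 + (n : ℝ) ^ 2 * (1 / 2) ^ 200 +
      (1 / 2) ^ 200) < 1 := by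
    rw [hnR]
    norm_num
  have e7 := add_le_add (add_le_add e4 e5) e3
  have e8 := mul_le_mul_of_nonneg_left e7 (by norm_num : (0 : ℝ) ≤ 64)
  have e9 := add_le_add (le_refl (1 / 4 : ℝ)) e8
  exact lt_of_le_of_lt e9 e6

/-- binomial coefficients -/
theorem choose_le (k j : ℕ) (hj : j ≤ k) : (((128 * k).choose j : ℕ) : ℝ) ≤ 2 ^ (9 * k) := by
  have h1 : (((128 * k).choose j : ℕ) : ℝ) * (1 / 128) ^ j ≤ (1 / 128 + 1) ^ (128 * k) := by
    rw [add_pow]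
    have h2 := Finset.single_le_sum (s := Finset.range (128 * k + 1))
      (f := fun m => (1 / 128 : ℝ) ^ m * 1 ^ (128 * k - m) * ((128 * k).choose m : ℕ))
      (fun m _ => by positivity) (Finset.mem_range.2 (by omega : j < 128 * k + 1))
    refine le_trans (le_of_eq ?_) h2
    simp only [one_pow, mul_one]
    ring
  have h3 : (1 / 128 + 1 : ℝ) ^ (128 * k) ≤ 4 ^ k := by
    rw [pow_mul]
    exact pow_le_pow_left₀ (by positivity) (by norm_num) k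
  have h4 : (((128 * k).choose j : ℕ) : ℝ) =
      (((128 * k).choose j : ℕ) : ℝ) * (1 / 128) ^ j * 128 ^ j := by
    rw [mul_assoc, ← mul_pow]
    norm_num
  rw [h4]
  calc (((128 * k).choose j : ℕ) : ℝ) * (1 / 128) ^ j * 128 ^ j ≤ 4 ^ k * 128 ^ k := by
        apply mul_le_mul (h1.trans h3) _ (by positivity) (by positivity)
        exact pow_le_pow_right₀ (by norm_num) hj
    _ = 2 ^ (9 * k) := by
        rw [← mul_pow, pow_mul]
        norm_num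

/-- expected number of bad ridges -/
theorem num_A (k n : ℕ) (hk : 1 ≤ k) (hn : n = 128 * k) :
    ((n.choose (k - 1) : ℕ) : ℝ) * (3 ^ (64 * k) * (1 / 2) ^ (n - (k - 1))) ≤ 1 / 4 := by
  have h1 : ((n.choose (k - 1) : ℕ) : ℝ) ≤ 2 ^ (9 * k) := by
    rw [hn]; exact choose_le k (k - 1) (by omega)
  have h2 : (3 : ℝ) ^ (64 * k) ≤ 2 ^ (102 * k) := by
    rw [pow_mul, pow_mul]
    exact pow_le_pow_left₀ (by norm_num) (by norm_num) k
  have h3 : n - (k - 1) = 127 * k + 1 := by omega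
  rw [h3]
  calc ((n.choose (k - 1) : ℕ) : ℝ) * (3 ^ (64 * k) * (1 / 2) ^ (127 * k + 1)) ≤
        2 ^ (9 * k) * (2 ^ (102 * k) * (1 / 2) ^ (127 * k + 1)) := by
        apply mul_le_mul h1 _ (by positivity) (by positivity)
        exact mul_le_mul_of_nonneg_right h2 (by positivity)
    _ = (1 / 2) ^ (16 * k + 1) := by
        have h5 : 127 * k + 1 = (9 * k + 102 * k) + (16 * k + 1) := by ring
        rw [h5, pow_add (1 / 2 : ℝ), ← mul_assoc, ← pow_add, ← mul_assoc, ← mul_pow]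
        norm_num
    _ ≤ (1 / 2) ^ 2 := pow_le_pow_of_le_one (by norm_num) (by norm_num) (by omega)
    _ = 1 / 4 := by norm_num

/-- expected number of bad walks -/
theorem num_B (M k n N : ℕ) (hM : M = 2 ^ 20) (hk : k = M ^ 4) (hn : n = 128 * k) :
    ∑ j ∈ Finset.Ico k N, ((n.choose k : ℕ) : ℝ) *
      (((n : ℝ) ^ 6) ^ (2 * (320 * (j + 1) / M)) * (8 ^ j * (25 / 32) ^ (62 * j))) ≤ 1 / 4 := by
  have hn2 : (n : ℝ) = 2 ^ 87 := by
    have : n = 2 ^ 87 := by rw [hn, hk, hM]; norm_num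
    rw [this]; norm_num
  have hk1 : 1 ≤ k := by rw [hk, hM]; norm_num
  have h1 : ((n.choose k : ℕ) : ℝ) ≤ 2 ^ (9 * k) := by
    rw [hn]; exact choose_le k k le_rfl
  have hterm : ∀ j ∈ Finset.Ico k N, ((n.choose k : ℕ) : ℝ) *
      (((n : ℝ) ^ 6) ^ (2 * (320 * (j + 1) / M)) * (8 ^ j * (25 / 32) ^ (62 * j))) ≤
      (2 * (1 / 2) ^ (8 * k)) * (1 / 2) ^ j := by
    intro j hj
    rw [Finset.mem_Ico] at hj
    have h2 : ((n : ℝ) ^ 6) ^ (2 * (320 * (j + 1) / M)) ≤ 2 ^ (j + 1) := by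
      rw [hn2, ← pow_mul, ← pow_mul]
      apply pow_le_pow_right₀ (by norm_num)
      have h3 : 320 * (j + 1) / M * M ≤ 320 * (j + 1) := Nat.div_mul_le_self _ _
      rw [hM] at h3 ⊢
      omega
    have h3 : (8 : ℝ) ^ j * (25 / 32) ^ (62 * j) ≤ (1 / 2) ^ (19 * j) := by
      rw [pow_mul, pow_mul, ← mul_pow]
      exact pow_le_pow_left₀ (by positivity) (by norm_num) j
    calc ((n.choose k : ℕ) : ℝ) *
      (((n : ℝ) ^ 6) ^ (2 * (320 * (j + 1) / M)) * (8 ^ j * (25 / 32) ^ (62 * j))) ≤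
        2 ^ (9 * k) * (2 ^ (j + 1) * (1 / 2) ^ (19 * j)) := by
          apply mul_le_mul h1 _ (by positivity) (by positivity)
          exact mul_le_mul h2 h3 (by positivity) (by positivity)
      _ = 2 * 2 ^ (9 * k) * (1 / 2) ^ (18 * j) := by
          have h5 : 19 * j = j + 18 * j := by ring
          rw [h5, pow_add (1 / 2 : ℝ) j, pow_succ]
          have h6 : (2 : ℝ) ^ j * (1 / 2) ^ j = 1 := by rw [← mul_pow]; norm_num
          calc (2 : ℝ) ^ (9 * k) * (2 ^ j * 2 * ((1 / 2) ^ j * (1 / 2) ^ (18 * j))) =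
              2 * 2 ^ (9 * k) * ((2 ^ j * (1 / 2) ^ j) * (1 / 2) ^ (18 * j)) := by ring
            _ = _ := by rw [h6, one_mul]
      _ ≤ 2 * 2 ^ (9 * k) * (1 / 2) ^ (17 * k + j) := by
          apply mul_le_mul_of_nonneg_left _ (by positivity)
          exact pow_le_pow_of_le_one (by norm_num) (by norm_num) (by omega)
      _ = (2 * (1 / 2) ^ (8 * k)) * (1 / 2) ^ j := by
          have h5 : 17 * k + j = 9 * k + (8 * k + j) := by ring
          rw [h5, pow_add (1 / 2 : ℝ) (9 * k), pow_add (1 / 2 : ℝ) (8 * k)]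
          have h6 : (2 : ℝ) ^ (9 * k) * (1 / 2) ^ (9 * k) = 1 := by rw [← mul_pow]; norm_num
          calc (2 : ℝ) * 2 ^ (9 * k) * ((1 / 2) ^ (9 * k) * ((1 / 2) ^ (8 * k) * (1 / 2) ^ j)) =
              (2 ^ (9 * k) * (1 / 2) ^ (9 * k)) * ((2 * (1 / 2) ^ (8 * k)) * (1 / 2) ^ j) := by ring
            _ = _ := by rw [h6, one_mul]
  refine (Finset.sum_le_sum hterm).trans ?_
  rw [← Finset.mul_sum]
  have h2 : ∑ j ∈ Finset.Ico k N, (1 / 2 : ℝ) ^ j ≤ 2 := by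
    refine le_trans (Finset.sum_le_sum_of_subset_of_nonneg (t := Finset.range N) ?_
      (fun i _ _ => by positivity)) (sum_geometric_two_le N)
    intro i hi
    rw [Finset.mem_Ico] at hi
    exact Finset.mem_range.2 hi.2
  have h3 : (1 / 2 : ℝ) ^ (8 * k) ≤ (1 / 2) ^ 8 :=
    pow_le_pow_of_le_one (by norm_num) (by norm_num) (by omega)
  calc (2 * (1 / 2 : ℝ) ^ (8 * k)) * ∑ j ∈ Finset.Ico k N, (1 / 2 : ℝ) ^ j ≤
        (2 * (1 / 2 : ℝ) ^ 8) * 2 := by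
        apply mul_le_mul _ h2 (Finset.sum_nonneg fun i _ => by positivity) (by positivity)
        exact mul_le_mul_of_nonneg_left h3 (by norm_num)
    _ ≤ 1 / 4 := by norm_num

end Pool.Agent.Helper490_Sph
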