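import Pool.Agent.Helper490_Sph.Samp
import Pool.Agent.Helper490_Sph.Num

set_option autoImplicit false

/-! The random `k`-graph. -/

namespace Pool.Agent.Helper490_Sph

open Finset

variable {n k : ℕ}

/-- the `k`-graph of a colouring with four colours: the `k`-sets whose colour is not `0` -/
def Gc (k : ℕ) (c : Finset (Fin n) → Fin 4) : Finset (Finset (Fin n)) :=
  Finset.univ.filter (fun e => e.card = k ∧ (c e).val ≠ 0)

/-- first part of the weight: ridges of small degree -/
noncomputable def wA (T : ℝ) (S : Finset (Fin n)) (c : Finset (Fin n) → Fin 4) : ℝ :=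
  T * ∏ v ∈ Sᶜ, w2 1 (1 / 3) (c (insert v S))

theorem Ex_wA (T : ℝ) (S : Finset (Fin n)) :
    Ex (wA (n := n) T S) = T * (1 / 2) ^ (n - S.card) := by
  unfold wA
  rw [Ex_mul_left, Ex_prod_coord (by norm_num) (Sᶜ) (fun v => insert v S) _ (w2 1 (1 / 3)),
    sum_two (by norm_num), Finset.card_compl, Fintype.card_fin]
  · congr 2
    norm_num
  · intro x hx y hy hxy
    rw [Finset.mem_compl] at hx hy
    have h1 : x ∈ insert y S := by rw [← hxy]; exact Finset.mem_insert_self x S
    rcases Finset.mem_insert.1 h1 with h | h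
    · exact h
    · exact absurd h hx

/-- second part of the weight: decoded families almost contained in `G` -/
noncomputable def wB (k τ j : ℕ) (s : Finset (Fin n)) (l : List (Mv n))
    (c : Finset (Fin n) → Fin 4) : ℝ :=
  if 62 * j ≤ (Dec k τ (pos s l)).card then
    8 ^ j * ∏ e ∈ Dec k τ (pos s l), w2 (1 / 8) 1 (c e) else 0

theorem Ex_wB (k τ j : ℕ) (s : Finset (Fin n)) (l : List (Mv n)) :
    Ex (wB (n := n) k τ j s l) ≤ 8 ^ j * (25 / 32) ^ (62 * j) := by
  unfold wB
  split_ifs with h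
  · rw [Ex_mul_left, Ex_prod_coord (by norm_num) (Dec k τ (pos s l)) (fun e => e)
      (fun x _ y _ hxy => hxy) (w2 (1 / 8) 1), sum_two (by norm_num)]
    apply mul_le_mul_of_nonneg_left _ (by positivity)
    have h1 : ((1 / 8 : ℝ) + (((4 : ℕ) : ℝ) - 1) * 1) / ((4 : ℕ) : ℝ) = 25 / 32 := by norm_num
    rw [h1]
    exact pow_le_pow_of_le_one (by norm_num) (by norm_num) h
  · rw [Ex_const (by norm_num)]
    positivity

theorem w2_nonneg {M : ℕ} (a b : ℝ) (ha : 0 ≤ a) (hb : 0 ≤ b) (j : Fin M) : 0 ≤ w2 a b j := by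
  unfold w2
  split_ifs
  · exact ha
  · exact hb

theorem exists_G (M k n τ : ℕ) (hM : M = 2 ^ 20) (hk : k = M ^ 4) (hn : n = 128 * k) :
    ∃ G : Finset (Finset (Fin n)), (∀ e ∈ G, e.card = k) ∧
      (∀ S : Finset (Fin n), S.card + 1 = k → n ≤ 2 * (G.filter (fun e => S ⊆ e)).card) ∧
      (∀ j : ℕ, k ≤ j → ∀ s : Finset (Fin n), s.card = k → ∀ l : List (Mv n),
        l.length = 2 * (320 * (j + 1) / M) → 62 * j ≤ (Dec k τ (pos s l)).card →
        j < (Dec k τ (pos s l) \ G).card) := by
  classical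
  have hk1 : 1 ≤ k := by rw [hk, hM]; norm_num
  let N : ℕ := (Finset.univ : Finset (Finset (Fin n))).card + 1
  let Lj : ℕ → ℕ := fun j => 2 * (320 * (j + 1) / M)
  let ΘA : (Finset (Fin n) → Fin 4) → ℝ := fun c =>
    ∑ S ∈ Finset.powersetCard (k - 1) (Finset.univ : Finset (Fin n)), wA (3 ^ (64 * k)) S c
  let ΘB : (Finset (Fin n) → Fin 4) → ℝ := fun c =>
    ∑ j ∈ Finset.Ico k N, ∑ s ∈ Finset.powersetCard k (Finset.univ : Finset (Fin n)),
      ∑ w : Fin (Lj j) → Mv n, wB k τ j s (List.ofFn w) c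
  have hA : Ex ΘA ≤ 1 / 4 := by
    simp only [ΘA]
    rw [Ex_sum]
    have h1 : ∀ S ∈ Finset.powersetCard (k - 1) (Finset.univ : Finset (Fin n)),
        Ex (wA (n := n) (3 ^ (64 * k)) S) = 3 ^ (64 * k) * (1 / 2) ^ (n - (k - 1)) := by
      intro S hS
      rw [Ex_wA, (Finset.mem_powersetCard.1 hS).2]
    rw [Finset.sum_congr rfl h1, Finset.sum_const, Finset.card_powersetCard, Finset.card_univ,
      Fintype.card_fin, nsmul_eq_mul]
    exact num_A k n hk1 hn
  have hB : Ex ΘB ≤ 1 / 4 := by
    simp only [ΘB]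
    rw [Ex_sum]
    refine le_trans (Finset.sum_le_sum fun j _ => ?_) (num_B M k n N hM hk hn)
    rw [Ex_sum]
    have h1 : ∀ s ∈ Finset.powersetCard k (Finset.univ : Finset (Fin n)),
        Ex (fun c : Finset (Fin n) → Fin 4 => ∑ w : Fin (Lj j) → Mv n,
          wB k τ j s (List.ofFn w) c) ≤
        (((n : ℝ) ^ 6) ^ (2 * (320 * (j + 1) / M)) * (8 ^ j * (25 / 32) ^ (62 * j))) := by
      intro s _
      rw [Ex_sum]
      refine (Finset.sum_le_sum fun w _ => Ex_wB k τ j s (List.ofFn w)).trans ?_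
      rw [Finset.sum_const, nsmul_eq_mul, Finset.card_univ, Fintype.card_fun, Fintype.card_fin]
      apply le_of_eq
      congr 1
      have h2 : Fintype.card (Mv n) = n ^ 6 := by
        simp only [Fintype.card_prod, Fintype.card_fin]
        ring
      rw [h2]
      push_cast
      rfl
    refine (Finset.sum_le_sum h1).trans ?_
    rw [Finset.sum_const, Finset.card_powersetCard, Finset.card_univ, Fintype.card_fin,
      nsmul_eq_mul]
  have hAB : Ex (fun c => ΘA c + ΘB c) < 1 := by
    rw [Ex_add]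
    linarith
  obtain ⟨c, hc⟩ := exists_lt_of_Ex_lt (by norm_num) hAB
  have hwA : ∀ S, 0 ≤ wA (n := n) (3 ^ (64 * k)) S c := by
    intro S
    unfold wA
    exact mul_nonneg (by positivity) (Finset.prod_nonneg fun v _ =>
      w2_nonneg _ _ (by norm_num) (by norm_num) _)
  have hwB : ∀ j s l, 0 ≤ wB (n := n) k τ j s l c := by
    intro j s l
    unfold wB
    split_ifs
    · exact mul_nonneg (by positivity) (Finset.prod_nonneg fun v _ =>
        w2_nonneg _ _ (by norm_num) (by norm_num) _)
    · exact le_rfl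
  have hΘA : 0 ≤ ΘA c := Finset.sum_nonneg fun S _ => hwA S
  have hΘB : 0 ≤ ΘB c := Finset.sum_nonneg fun j _ => Finset.sum_nonneg fun s _ =>
    Finset.sum_nonneg fun w _ => hwB j s _
  refine ⟨Gc k c, ?_, ?_, ?_⟩
  · intro e he
    exact (Finset.mem_filter.1 he).2.1
  · intro S hS
    have h1 : wA (3 ^ (64 * k)) S c < 1 := by
      have h2 : wA (3 ^ (64 * k)) S c ≤ ΘA c := by
        simp only [ΘA]
        refine Finset.single_le_sum (f := fun S => wA (3 ^ (64 * k)) S c) (fun S _ => hwA S) ?_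
        rw [Finset.mem_powersetCard]
        exact ⟨Finset.subset_univ _, by omega⟩
      linarith
    have h2 : ∏ v ∈ Sᶜ, w2 1 (1 / 3) (c (insert v S)) =
        (1 / 3 : ℝ) ^ (Sᶜ.filter (fun v => ¬ (c (insert v S)).val = 0)).card := by
      rw [prod_w2, one_pow, one_mul]
    have h3 : (Sᶜ.filter (fun v => ¬ (c (insert v S)).val = 0)).card ≤
        ((Gc k c).filter (fun e => S ⊆ e)).card := by
      apply Finset.card_le_card_of_injOn (fun v => insert v S)
      · intro v hv
        rw [Finset.mem_coe, Finset.mem_filter, Finset.mem_compl] at hv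
        rw [Finset.mem_coe, Finset.mem_filter]
        refine ⟨?_, Finset.subset_insert _ _⟩
        unfold Gc
        rw [Finset.mem_filter]
        refine ⟨Finset.mem_univ _, ?_, hv.2⟩
        rw [Finset.card_insert_of_notMem hv.1]
        exact hS
      · intro x hx y hy hxy
        rw [Finset.mem_coe, Finset.mem_filter, Finset.mem_compl] at hx hy
        have h4 : x ∈ insert y S := by
          have : insert x S = insert y S := hxy
          rw [← this]; exact Finset.mem_insert_self x S
        rcases Finset.mem_insert.1 h4 with h | h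
        · exact h
        · exact absurd h hx.1
    by_contra hcon
    rw [not_le] at hcon
    have h4 : (Sᶜ.filter (fun v => ¬ (c (insert v S)).val = 0)).card ≤ 64 * k := by omega
    have h5 : (1 : ℝ) ≤ wA (3 ^ (64 * k)) S c := by
      unfold wA
      rw [h2]
      have h6 : (1 / 3 : ℝ) ^ (64 * k) ≤
          (1 / 3 : ℝ) ^ (Sᶜ.filter (fun v => ¬ (c (insert v S)).val = 0)).card :=
        pow_le_pow_of_le_one (by norm_num) (by norm_num) h4
      calc (1 : ℝ) = 3 ^ (64 * k) * (1 / 3 : ℝ) ^ (64 * k) := by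
            rw [← mul_pow]; norm_num
        _ ≤ _ := mul_le_mul_of_nonneg_left h6 (by positivity)
    linarith
  · intro j hj s hs l hl hD
    have hjN : j < N := by
      have h1 : (Dec k τ (pos s l)).card ≤ (Finset.univ : Finset (Finset (Fin n))).card :=
        Finset.card_le_card (Finset.subset_univ _)
      show j < (Finset.univ : Finset (Finset (Fin n))).card + 1
      omega
    have h1 : wB k τ j s l c < 1 := by
      have hw : ∃ w : Fin (Lj j) → Mv n, List.ofFn w = l := by
        refine ⟨fun i => l.get (Fin.cast hl.symm i), ?_⟩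
        apply List.ext_getElem
        · rw [List.length_ofFn]
          exact hl.symm
        · intro i h1 h2
          rw [List.getElem_ofFn]
          rfl
      obtain ⟨w, hw⟩ := hw
      have h2 : wB k τ j s l c ≤ ΘB c := by
        simp only [ΘB]
        calc wB k τ j s l c = wB k τ j s (List.ofFn w) c := by rw [hw]
          _ ≤ ∑ w : Fin (Lj j) → Mv n, wB k τ j s (List.ofFn w) c :=
              Finset.single_le_sum (f := fun w : Fin (Lj j) → Mv n =>
                wB k τ j s (List.ofFn w) c) (fun w _ => hwB j s _) (Finset.mem_univ w)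
          _ ≤ ∑ s ∈ Finset.powersetCard k (Finset.univ : Finset (Fin n)),
              ∑ w : Fin (Lj j) → Mv n, wB k τ j s (List.ofFn w) c :=
              Finset.single_le_sum (f := fun s => ∑ w : Fin (Lj j) → Mv n,
                wB k τ j s (List.ofFn w) c)
                (fun s _ => Finset.sum_nonneg fun w _ => hwB j s _)
                (Finset.mem_powersetCard.2 ⟨Finset.subset_univ _, hs⟩)
          _ ≤ _ :=
              Finset.single_le_sum (f := fun j =>
                ∑ s ∈ Finset.powersetCard k (Finset.univ : Finset (Fin n)),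
                ∑ w : Fin (Lj j) → Mv n, wB k τ j s (List.ofFn w) c)
                (fun j _ => Finset.sum_nonneg fun s _ => Finset.sum_nonneg fun w _ => hwB j s _)
                (Finset.mem_Ico.2 ⟨hj, hjN⟩)
      linarith
    by_contra hcon
    rw [not_lt] at hcon
    have h2 : (Dec k τ (pos s l)).filter (fun e => (c e).val = 0) ⊆
        Dec k τ (pos s l) \ Gc k c := by
      intro e he
      rw [Finset.mem_filter] at he
      rw [Finset.mem_sdiff]
      refine ⟨he.1, fun h => ?_⟩
      exact (Finset.mem_filter.1 h).2.2 he.2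
    have h3 := (Finset.card_le_card h2).trans hcon
    have h4 : (1 : ℝ) ≤ wB k τ j s l c := by
      unfold wB
      rw [if_pos hD, prod_w2, one_pow, mul_one]
      have h6 : (1 / 8 : ℝ) ^ j ≤
          (1 / 8 : ℝ) ^ ((Dec k τ (pos s l)).filter (fun e => (c e).val = 0)).card :=
        pow_le_pow_of_le_one (by norm_num) (by norm_num) h3
      calc (1 : ℝ) = 8 ^ j * (1 / 8 : ℝ) ^ j := by
            rw [← mul_pow]; norm_num
        _ ≤ _ := mul_le_mul_of_nonneg_left h6 (by positivity)
    linarith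

/-- There is a uniform hypergraph in which all co-degrees are at least half the order, without
spanning strongly connected closed pseudomanifolds. -/
theorem counterexample : ∃ (k n : ℕ), 2 ≤ k ∧ k < n ∧ ∃ G : Finset (Finset (Fin n)),
    (∀ e ∈ G, e.card = k) ∧
    (∀ S : Finset (Fin n), S.card + 1 = k → n ≤ 2 * (G.filter (fun e => S ⊆ e)).card) ∧
    ∀ H : Finset (Finset (Fin n)), H ⊆ G → (∀ v : Fin n, ∃ e ∈ H, v ∈ e) → ¬ CPM k H := by
  obtain ⟨M, hM⟩ : ∃ M : ℕ, M = 2 ^ 20 := ⟨_, rfl⟩
  obtain ⟨k, hk⟩ : ∃ k : ℕ, k = M ^ 4 := ⟨_, rfl⟩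
  obtain ⟨n, hn⟩ : ∃ n : ℕ, n = 128 * k := ⟨_, rfl⟩
  obtain ⟨τ, hτ⟩ : ∃ τ : ℕ, 4 * τ = M ^ 3 := ⟨2 ^ 58, by rw [hM]; norm_num⟩
  have hM0 : 0 < M := by rw [hM]; norm_num
  have hk2 : 2 ≤ k := by rw [hk, hM]; norm_num
  have hτ0 : 0 < τ := by
    by_contra h
    have h1 : τ = 0 := by omega
    rw [h1] at hτ
    have : 0 < M ^ 3 := pow_pos hM0 3
    omega
  have hMn : M ≤ 64 * n ^ 2 := by
    have h1 : M ≤ k := by rw [hk]; exact Nat.le_self_pow (by norm_num) M
    have h2 : k ≤ n := by omega
    have h3 : n ≤ n ^ 2 := Nat.le_self_pow (by norm_num) n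
    omega
  have hM320 : 320 ≤ M := by rw [hM]; norm_num
  obtain ⟨G, hG1, hG2, hG3⟩ := exists_G M k n τ hM hk hn
  refine ⟨k, n, hk2, by omega, G, hG1, hG2, ?_⟩
  intro H hHG hcov h
  obtain ⟨P, hPH, hP1, hP2, hP3, hP4⟩ := h.certificate M τ hM0 hτ0 hMn
    (num_cert M k n τ hM hk hn hτ)
  have hsize := h.size hcov
  obtain ⟨j, hj⟩ : ∃ j, j = H.card / 64 := ⟨_, rfl⟩
  have hj1 : 64 * j ≤ H.card := by omega
  have hj2 : H.card < 64 * (j + 1) := by omega
  have hkj : k ≤ j := by omega
  have hPm : P.card ≤ 320 * (j + 1) / M := by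
    rw [Nat.le_div_iff_mul_le hM0]
    have : P.card * M = M * P.card := Nat.mul_comm _ _
    omega
  have hPne : P.Nonempty := by
    obtain ⟨f, hf⟩ := h.ne
    obtain ⟨p, hp, _⟩ := hP4 f hf
    exact ⟨p, hp⟩
  obtain ⟨s, hs, l, hl, hlP⟩ := exists_tour P (fun e he => h.card e (hPH he)) (by omega) hPne
    (h.dom_conn P hPH hP4) (320 * (j + 1) / M) hPm
  have hD1 : 62 * j ≤ (Dec k τ (pos s l)).card := by
    rw [hlP]
    have h1 : H.card ≤ (H \ (P ∪ Dec k τ P)).card + (P ∪ Dec k τ P).card := by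
      have h2 : H ⊆ (H \ (P ∪ Dec k τ P)) ∪ (P ∪ Dec k τ P) := by
        intro f hf
        by_cases h3 : f ∈ P ∪ Dec k τ P
        · exact Finset.mem_union_right _ h3
        · exact Finset.mem_union_left _ (Finset.mem_sdiff.2 ⟨hf, h3⟩)
      exact (Finset.card_le_card h2).trans (Finset.card_union_le _ _)
    have h2 := Finset.card_union_le P (Dec k τ P)
    have h3 : 320 * P.card ≤ M * P.card := Nat.mul_le_mul_right _ hM320
    omega
  have hD2 := hG3 j hkj s (h.card s (hPH hs)) l hl hD1
  rw [hlP] at hD2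
  have hD3 : (Dec k τ P \ G).card ≤ (Dec k τ P \ H).card :=
    Finset.card_le_card (Finset.sdiff_subset_sdiff subset_rfl hHG)
  omega

end Pool.Agent.Helper490_Sph
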