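import Pool.Agent.Helper490_Sph.Ex
import Pool.Agent.Helper490_Sph.Cpm

set_option autoImplicit false

/-! The sparse certificate of a pseudomanifold: a small random set of facets determines almost all
the others through a local decoder. -/

namespace Pool.Agent.Helper490_Sph

open Finset

variable {n k : ℕ}

/-- the decoder: the `k`-sets `g` outside `P` such that no ridge of `g` is in two members of `P`
and at least `τ` ridges of `g` are in exactly one member of `P` -/
def Dec (k τ : ℕ) (P : Finset (Finset (Fin n))) : Finset (Finset (Fin n)) :=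
  Finset.univ.filter (fun g => g.card = k ∧ g ∉ P ∧ (∀ x ∈ g, dg P g x ≤ 1) ∧
    τ ≤ (g.filter (fun x => dg P g x = 1)).card)

theorem mem_Dec {τ : ℕ} {P : Finset (Finset (Fin n))} {g : Finset (Fin n)} :
    g ∈ Dec k τ P ↔ g.card = k ∧ g ∉ P ∧ (∀ x ∈ g, dg P g x ≤ 1) ∧
    τ ≤ (g.filter (fun x => dg P g x = 1)).card := by
  unfold Dec
  simp

theorem sw_of_ridge (g e : Finset (Fin n)) (hg : g.card = k) (he : e.card = k) (x : Fin n)
    (hx : x ∈ g) (h : g.erase x ⊆ e) : ∃ y, sw e (y, x) = g := by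
  have h1 : (e \ g.erase x).card = 1 := by
    rw [Finset.card_sdiff_of_subset h, Finset.card_erase_of_mem hx]
    have := Finset.card_pos.2 ⟨x, hx⟩
    omega
  obtain ⟨y, hy⟩ := Finset.card_eq_one.1 h1
  refine ⟨y, ?_⟩
  have h2 : e.erase y = g.erase x := by
    rw [Finset.erase_eq, ← hy]
    exact Finset.sdiff_sdiff_eq_self h
  unfold sw
  rw [h2]
  exact Finset.insert_erase hx

/-- the sets obtained from the members of `U` by one swap -/
def swaps (U : Finset (Finset (Fin n))) : Finset (Finset (Fin n)) :=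
  (U ×ˢ (Finset.univ : Finset (Fin n × Fin n))).image (fun p => sw p.1 p.2)

theorem card_swaps (U : Finset (Finset (Fin n))) : (swaps U).card ≤ U.card * n ^ 2 := by
  unfold swaps
  refine Finset.card_image_le.trans ?_
  rw [Finset.card_product, Finset.card_univ, Fintype.card_prod, Fintype.card_fin, pow_two]

theorem mem_swaps (U : Finset (Finset (Fin n))) (g e : Finset (Fin n)) (he : e ∈ U)
    (hg : g.card = k) (hek : e.card = k) (x : Fin n)
    (hx : x ∈ g) (h : g.erase x ⊆ e) : g ∈ swaps U := by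
  obtain ⟨y, hy⟩ := sw_of_ridge g e hg hek x hx h
  unfold swaps
  rw [Finset.mem_image]
  exact ⟨(e, (y, x)), Finset.mem_product.2 ⟨he, Finset.mem_univ _⟩, hy⟩

/-- a two-valued function of a colour -/
noncomputable def w2 {M : ℕ} (a b : ℝ) (j : Fin M) : ℝ := if j.val = 0 then a else b

/-- sum of a two-valued function of a colour -/
theorem sum_two {M : ℕ} (hM : 0 < M) (a b : ℝ) :
    ∑ j : Fin M, w2 a b j = a + ((M : ℝ) - 1) * b := by
  obtain ⟨m, rfl⟩ : ∃ m, M = m + 1 := ⟨M - 1, by omega⟩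
  rw [Fin.sum_univ_succ]
  simp [w2]

theorem prod_w2 {M : ℕ} {β : Type} (R : Finset β) (a b : ℝ) (j : β → Fin M) :
    ∏ x ∈ R, w2 a b (j x) = a ^ (R.filter (fun x => (j x).val = 0)).card *
      b ^ (R.filter (fun x => ¬ (j x).val = 0)).card := by
  unfold w2
  rw [Finset.prod_ite, Finset.prod_const, Finset.prod_const]

section sampling

variable {M : ℕ} (H : Finset (Finset (Fin n)))

/-- the random set of facets -/
def Pc (c : Finset (Fin n) → Fin M) : Finset (Finset (Fin n)) := H.filter (fun f => (c f).val = 0)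

/-- number of sampled neighbours -/
noncomputable def Xc (f : Finset (Fin n)) (c : Finset (Fin n) → Fin M) : ℕ :=
  (f.filter (fun x => (c (opp H f x)).val = 0)).card

/-- facets that are not dominated -/
noncomputable def Uc (c : Finset (Fin n) → Fin M) : Finset (Finset (Fin n)) :=
  H.filter (fun f => (c f).val ≠ 0 ∧ ∀ x ∈ f, (c (opp H f x)).val ≠ 0)

/-- facets with few sampled neighbours -/
noncomputable def Lc (τ : ℕ) (c : Finset (Fin n) → Fin M) : Finset (Finset (Fin n)) :=
  H.filter (fun f => Xc H f c < τ)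

theorem Ex_P (hM : 0 < M) :
    Ex (fun c : Finset (Fin n) → Fin M => ((Pc H c).card : ℝ)) = (H.card : ℝ) * (1 / M) := by
  have h1 : (fun c : Finset (Fin n) → Fin M => ((Pc H c).card : ℝ)) =
      fun c => ∑ f ∈ H, w2 1 0 (c f) := by
    funext c
    unfold Pc w2
    simp
  rw [h1, Ex_sum, Finset.sum_congr rfl (fun f _ => Ex_coord hM f (w2 1 0)), Finset.sum_const,
    sum_two hM, nsmul_eq_mul]
  ring

theorem Ex_L (hM : 0 < M) (h : CPM k H) (τ : ℕ) :
    Ex (fun c : Finset (Fin n) → Fin M => ((Lc H τ c).card : ℝ)) ≤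
      (H.card : ℝ) * (2 ^ τ * (1 - 1 / (2 * (M : ℝ))) ^ k) := by
  have hMR : (0 : ℝ) < M := by exact_mod_cast hM
  have h1 : ∀ c : Finset (Fin n) → Fin M, ((Lc H τ c).card : ℝ) ≤
      ∑ f ∈ H, (2 ^ τ * ∏ x ∈ f, w2 (1/2) 1 (c (opp H f x))) := by
    intro c
    unfold Lc
    rw [Finset.card_filter]
    push_cast
    refine Finset.sum_le_sum fun f hf => ?_
    have hprod : ∏ x ∈ f, w2 (1/2) 1 (c (opp H f x)) = (1/2 : ℝ) ^ (Xc H f c) := by
      unfold Xc
      rw [prod_w2, one_pow, mul_one]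
    rw [hprod]
    split_ifs with hX
    · have h2 : (1/2 : ℝ) ^ τ ≤ (1/2 : ℝ) ^ (Xc H f c) :=
        pow_le_pow_of_le_one (by norm_num) (by norm_num) hX.le
      have h3 : (2 : ℝ) ^ τ * (1/2 : ℝ) ^ τ = 1 := by
        rw [← mul_pow]; norm_num
      calc (1 : ℝ) = (2 : ℝ) ^ τ * (1/2 : ℝ) ^ τ := h3.symm
        _ ≤ _ := mul_le_mul_of_nonneg_left h2 (by positivity)
    · positivity
  refine (Ex_mono h1).trans ?_
  rw [Ex_sum]
  have h4 : ∀ f ∈ H, Ex (fun c : Finset (Fin n) → Fin M => 2 ^ τ *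
      ∏ x ∈ f, w2 (1/2) 1 (c (opp H f x))) =
      2 ^ τ * (1 - 1 / (2 * (M : ℝ))) ^ k := by
    intro f hf
    rw [Ex_mul_left, Ex_prod_coord hM f (fun x => opp H f x) (h.opp_inj f hf) (w2 (1/2) 1),
      sum_two hM, h.card f hf]
    congr 2
    field_simp
    ring
  rw [Finset.sum_congr rfl h4, Finset.sum_const, nsmul_eq_mul]

theorem Ex_U (hM : 0 < M) (h : CPM k H) :
    Ex (fun c : Finset (Fin n) → Fin M => ((Uc H c).card : ℝ)) ≤
      (H.card : ℝ) * (1 - 1 / (M : ℝ)) ^ k := by
  have hMR : (0 : ℝ) < M := by exact_mod_cast hM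
  have h1 : ∀ c : Finset (Fin n) → Fin M, ((Uc H c).card : ℝ) ≤
      ∑ f ∈ H, (∏ x ∈ f, w2 0 1 (c (opp H f x))) := by
    intro c
    unfold Uc
    rw [Finset.card_filter]
    push_cast
    refine Finset.sum_le_sum fun f hf => ?_
    split_ifs with hX
    · rw [Finset.prod_eq_one]
      intro x hx
      unfold w2
      rw [if_neg (hX.2 x hx)]
    · exact Finset.prod_nonneg fun x _ => by
        unfold w2
        split_ifs <;> norm_num
  refine (Ex_mono h1).trans ?_
  rw [Ex_sum]
  have h4 : ∀ f ∈ H, Ex (fun c : Finset (Fin n) → Fin M =>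
      ∏ x ∈ f, w2 0 1 (c (opp H f x))) = (1 - 1 / (M : ℝ)) ^ k := by
    intro f hf
    rw [Ex_prod_coord hM f (fun x => opp H f x) (h.opp_inj f hf) (w2 0 1), sum_two hM,
      h.card f hf]
    congr 1
    field_simp
    ring
  rw [Finset.sum_congr rfl h4, Finset.sum_const, nsmul_eq_mul]

/-- weight of the number of sampled facets over a ridge of a ghost -/
noncomputable def wt (lam : ℝ) (m : ℕ) : ℝ := if m = 0 then 1 else if m = 1 then lam else 0

/-- the factor of the ridge `g.erase x` -/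
noncomputable def phi (lam : ℝ) (g : Finset (Fin n)) (x : Fin n)
    (c : Finset (Fin n) → Fin M) : ℝ := wt lam (dg (Pc H c) g x)

theorem dg_Pc (g : Finset (Fin n)) (x : Fin n) (c : Finset (Fin n) → Fin M) :
    dg (Pc H c) g x = ((H.filter (fun e => g.erase x ⊆ e)).filter (fun f => (c f).val = 0)).card := by
  unfold dg Pc
  rw [Finset.filter_filter, Finset.filter_filter]
  congr 1
  ext e
  simp only [Finset.mem_filter]
  tauto

theorem phi_dep (lam : ℝ) (g : Finset (Fin n)) (x : Fin n) :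
    DependsOn (phi (M := M) H lam g x)
      (↑(H.filter (fun e => g.erase x ⊆ e)) : Set (Finset (Fin n))) := by
  intro c c' h
  unfold phi
  rw [dg_Pc, dg_Pc]
  congr 2
  refine Finset.filter_congr fun e he => ?_
  rw [h e he]

theorem Ex_phi (hM : 0 < M) (h : CPM k H) (g : Finset (Fin n)) (hg : g.card = k) (x : Fin n)
    (hx : x ∈ g) (he : ∃ e ∈ H, g.erase x ⊆ e) :
    Ex (phi (M := M) H (1 + 1 / (2 * (M : ℝ))) g x) ≤ 1 := by
  have hMR : (0 : ℝ) < M := by exact_mod_cast hM
  have hc : (g.erase x).card + 1 = k := by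
    rw [Finset.card_erase_of_mem hx, ← hg]
    have := Finset.card_pos.2 ⟨x, hx⟩
    omega
  obtain ⟨a, b, hab, habs⟩ := Finset.card_eq_two.1 (h.two (g.erase x) hc he)
  let u : Fin M → ℝ := w2 1 0
  let v : Fin M → ℝ := w2 0 1
  have h1 : phi (M := M) H (1 + 1 / (2 * (M : ℝ))) g x = fun c =>
      (v (c a) * v (c b)) + (1 + 1 / (2 * (M : ℝ))) * (u (c a) * v (c b) + v (c a) * u (c b)) := by
    funext c
    unfold phi
    rw [dg_Pc, habs, Finset.filter_insert, Finset.filter_singleton]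
    by_cases ha : (c a).val = 0
    · by_cases hb : (c b).val = 0
      · simp only [ha, hb, if_true, u, v, w2]
        rw [Finset.card_insert_of_notMem (by simpa using hab), Finset.card_singleton]
        simp [wt]
      · simp only [ha, hb, if_true, if_false, u, v, w2]
        simp [wt]
    · by_cases hb : (c b).val = 0
      · simp only [ha, hb, if_true, if_false, u, v, w2]
        simp [wt]
      · simp only [ha, hb, if_false, u, v, w2]
        simp [wt]
  have hmul : ∀ w w' : Fin M → ℝ, Ex (fun c : Finset (Fin n) → Fin M => w (c a) * w' (c b)) =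
      ((∑ j, w j) / M) * ((∑ j, w' j) / M) := by
    intro w w'
    rw [Ex_mul hM (fun c => w (c a)) (fun c => w' (c b)) {a} {b} (dependsOn_coord a w)
      (dependsOn_coord b w') (by rw [Set.disjoint_singleton]; exact hab), Ex_coord hM, Ex_coord hM]
  have hu : (∑ j, u j) = 1 := by
    simp only [u]
    rw [sum_two hM]
    ring
  have hv : (∑ j, v j) = M - 1 := by
    simp only [v]
    rw [sum_two hM]
    ring
  rw [h1, Ex_add, Ex_mul_left, Ex_add, hmul, hmul, hmul, hu, hv]
  have h2 : ((M : ℝ) - 1) / M * (((M : ℝ) - 1) / M) + (1 + 1 / (2 * (M : ℝ))) *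
      (1 / M * (((M : ℝ) - 1) / M) + ((M : ℝ) - 1) / M * (1 / M)) = 1 - 1 / (M : ℝ) ^ 3 := by
    field_simp
    ring
  rw [h2]
  have : (0 : ℝ) < 1 / (M : ℝ) ^ 3 := by positivity
  linarith

/-- expected number of ghosts accepted by the decoder -/
theorem Ex_D (hM : 0 < M) (h : CPM k H) (τ : ℕ) (hτ : 0 < τ) :
    Ex (fun c : Finset (Fin n) → Fin M => ((Dec k τ (Pc H c) \ H).card : ℝ)) ≤
      (H.card : ℝ) * ((n : ℝ) ^ 2 * ((1 + 1 / (2 * (M : ℝ))) ^ τ)⁻¹) := by
  classical
  have hMR : (0 : ℝ) < M := by exact_mod_cast hM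
  set lam : ℝ := 1 + 1 / (2 * (M : ℝ)) with hlam
  have hlam1 : 1 ≤ lam := by
    rw [hlam]
    have : (0 : ℝ) < 1 / (2 * (M : ℝ)) := by positivity
    linarith
  have hlam0 : 0 < lam := by linarith
  let Gh : Finset (Finset (Fin n)) := (swaps H).filter (fun g => g.card = k ∧ g ∉ H)
  let R : Finset (Fin n) → Finset (Fin n) := fun g => g.filter (fun x => ∃ e ∈ H, g.erase x ⊆ e)
  have h1 : ∀ c : Finset (Fin n) → Fin M, ((Dec k τ (Pc H c) \ H).card : ℝ) ≤
      ∑ g ∈ Gh, (lam ^ τ)⁻¹ * ∏ x ∈ R g, phi H lam g x c := by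
    intro c
    have hsub : Dec k τ (Pc H c) \ H ⊆ Gh.filter (fun g => g ∈ Dec k τ (Pc H c)) := by
      intro g hg
      rw [Finset.mem_sdiff] at hg
      obtain ⟨hgD, hgH⟩ := hg
      have hD := mem_Dec.1 hgD
      have hne : (g.filter (fun x => dg (Pc H c) g x = 1)).Nonempty :=
        Finset.card_pos.1 (lt_of_lt_of_le hτ hD.2.2.2)
      obtain ⟨x, hx⟩ := hne
      rw [Finset.mem_filter] at hx
      have h2 : ((Pc H c).filter (fun f => g.erase x ⊆ f)).Nonempty := by
        apply Finset.card_pos.1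
        have := hx.2
        unfold dg at this
        omega
      obtain ⟨e, he⟩ := h2
      rw [Finset.mem_filter] at he
      have heH : e ∈ H := (Finset.mem_filter.1 he.1).1
      rw [Finset.mem_filter]
      refine ⟨Finset.mem_filter.2 ⟨?_, hD.1, hgH⟩, hgD⟩
      exact mem_swaps H g e heH hD.1 (h.card e heH) x hx.1 he.2
    have h2 : ((Dec k τ (Pc H c) \ H).card : ℝ) ≤
        ((Gh.filter (fun g => g ∈ Dec k τ (Pc H c))).card : ℝ) := by
      exact_mod_cast Finset.card_le_card hsub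
    refine h2.trans ?_
    rw [Finset.card_filter]
    push_cast
    refine Finset.sum_le_sum fun g hg => ?_
    have hphi : ∀ x ∈ R g, 0 ≤ phi H lam g x c := by
      intro x _
      unfold phi wt
      split_ifs
      · exact zero_le_one
      · exact hlam0.le
      · exact le_rfl
    split_ifs with hgD
    · have hD := mem_Dec.1 hgD
      have h3 : ∏ x ∈ R g, phi H lam g x c =
          ∏ x ∈ R g, (if dg (Pc H c) g x = 1 then lam else 1) := by
        refine Finset.prod_congr rfl fun x hx => ?_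
        have hxg : x ∈ g := (Finset.mem_filter.1 hx).1
        have h4 := hD.2.2.1 x hxg
        unfold phi wt
        by_cases h5 : dg (Pc H c) g x = 1
        · rw [h5]; simp
        · have h6 : dg (Pc H c) g x = 0 := by omega
          rw [h6]; simp
      have h4 : (R g).filter (fun x => dg (Pc H c) g x = 1) =
          g.filter (fun x => dg (Pc H c) g x = 1) := by
        ext x
        simp only [R, Finset.mem_filter]
        constructor
        · rintro ⟨⟨h5, _⟩, h6⟩
          exact ⟨h5, h6⟩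
        · rintro ⟨h5, h6⟩
          refine ⟨⟨h5, ?_⟩, h6⟩
          have h7 : ((Pc H c).filter (fun f => g.erase x ⊆ f)).Nonempty := by
            apply Finset.card_pos.1
            unfold dg at h6
            omega
          obtain ⟨e, he⟩ := h7
          rw [Finset.mem_filter] at he
          exact ⟨e, (Finset.mem_filter.1 he.1).1, he.2⟩
      rw [h3, Finset.prod_ite, Finset.prod_const, Finset.prod_const_one, mul_one, h4]
      have h5 : lam ^ τ ≤ lam ^ (g.filter (fun x => dg (Pc H c) g x = 1)).card :=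
        pow_le_pow_right₀ hlam1 hD.2.2.2
      have h6 : (lam ^ τ)⁻¹ * lam ^ τ = 1 := inv_mul_cancel₀ (pow_pos hlam0 τ).ne'
      calc (1 : ℝ) = (lam ^ τ)⁻¹ * lam ^ τ := h6.symm
        _ ≤ _ := mul_le_mul_of_nonneg_left h5 (by positivity)
    · exact mul_nonneg (by positivity) (Finset.prod_nonneg hphi)
  refine (Ex_mono h1).trans ?_
  rw [Ex_sum]
  have h2 : ∀ g ∈ Gh, Ex (fun c : Finset (Fin n) → Fin M =>
      (lam ^ τ)⁻¹ * ∏ x ∈ R g, phi H lam g x c) ≤ (lam ^ τ)⁻¹ := by
    intro g hg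
    obtain ⟨_, hgk, hgH⟩ := Finset.mem_filter.1 hg
    rw [Ex_mul_left, Ex_prod hM (R g) (fun x c => phi H lam g x c)
      (fun x => (↑(H.filter (fun e => g.erase x ⊆ e)) : Set (Finset (Fin n))))
      (fun x _ => phi_dep H lam g x)]
    · have h3 : ∏ x ∈ R g, Ex (phi (M := M) H lam g x) ≤ 1 := by
        apply Finset.prod_le_one
        · intro x _
          apply Ex_nonneg
          intro c
          unfold phi wt
          split_ifs
          · exact zero_le_one
          · exact hlam0.le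
          · exact le_rfl
        · intro x hx
          obtain ⟨hxg, hxe⟩ := Finset.mem_filter.1 hx
          exact Ex_phi H hM h g hgk x hxg hxe
      calc (lam ^ τ)⁻¹ * ∏ x ∈ R g, Ex (phi (M := M) H lam g x) ≤ (lam ^ τ)⁻¹ * 1 :=
            mul_le_mul_of_nonneg_left h3 (by positivity)
        _ = _ := mul_one _
    · intro x hx y hy hxy
      rw [Set.disjoint_left]
      intro e he he'
      rw [Finset.mem_coe, Finset.mem_filter] at he he'
      have h3 := eq_of_two_ridges g e hgk (h.card e he.1) x y hxy he.2 he'.2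
      exact hgH (h3 ▸ he.1)
  refine (Finset.sum_le_sum h2).trans ?_
  rw [Finset.sum_const, nsmul_eq_mul]
  have h3 : (Gh.card : ℝ) ≤ (H.card : ℝ) * (n : ℝ) ^ 2 := by
    have h4 : Gh.card ≤ H.card * n ^ 2 :=
      (Finset.card_le_card (Finset.filter_subset _ _)).trans (card_swaps H)
    exact_mod_cast h4
  rw [← mul_assoc]
  exact mul_le_mul_of_nonneg_right h3 (by positivity)

end sampling

/-- The sparse certificate. -/
theorem CPM.certificate {H : Finset (Finset (Fin n))} (h : CPM k H) (M τ : ℕ) (hM : 0 < M)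
    (hτ : 0 < τ) (hMn : M ≤ 64 * n ^ 2)
    (hnum : 1 / 4 + 64 * ((n : ℝ) ^ 2 * ((1 + 1 / (2 * (M : ℝ))) ^ τ)⁻¹ +
      (n : ℝ) ^ 2 * (1 - 1 / (M : ℝ)) ^ k + 2 ^ τ * (1 - 1 / (2 * (M : ℝ))) ^ k) < 1) :
    ∃ P : Finset (Finset (Fin n)), P ⊆ H ∧ M * P.card ≤ 5 * H.card ∧
      64 * (Dec k τ P \ H).card ≤ H.card ∧ 64 * (H \ (P ∪ Dec k τ P)).card ≤ H.card ∧
      ∀ f ∈ H, ∃ p ∈ P, (f \ p).card ≤ 1 ∧ (p \ f).card ≤ 1 := by
  classical
  have hMR : (0 : ℝ) < M := by exact_mod_cast hM
  have hF : (0 : ℝ) < H.card := by exact_mod_cast Finset.card_pos.2 h.ne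
  let Θ : (Finset (Fin n) → Fin M) → ℝ := fun c =>
    (M / (4 * (H.card : ℝ))) * (Pc H c).card + (64 / (H.card : ℝ)) *
      (((Dec k τ (Pc H c) \ H).card : ℝ) + ((n : ℝ) ^ 2 * (Uc H c).card + (Lc H τ c).card))
  have hΘ : Ex Θ < 1 := by
    have h1 : Ex Θ = (M / (4 * (H.card : ℝ))) * Ex (fun c : Finset (Fin n) → Fin M => ((Pc H c).card : ℝ)) +
        (64 / (H.card : ℝ)) * (Ex (fun c : Finset (Fin n) → Fin M => ((Dec k τ (Pc H c) \ H).card : ℝ)) +
          ((n : ℝ) ^ 2 * Ex (fun c : Finset (Fin n) → Fin M => ((Uc H c).card : ℝ)) +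
            Ex (fun c : Finset (Fin n) → Fin M => ((Lc H τ c).card : ℝ)))) := by
      simp only [Θ]
      rw [Ex_add, Ex_mul_left, Ex_mul_left, Ex_add, Ex_add, Ex_mul_left]
    rw [h1]
    have hP := Ex_P H hM
    have hL := Ex_L H hM h τ
    have hU := Ex_U H hM h
    have hD := Ex_D H hM h τ hτ
    rw [hP]
    have h2 : (M / (4 * (H.card : ℝ))) * ((H.card : ℝ) * (1 / M)) = 1 / 4 := by
      field_simp
    rw [h2]
    refine lt_of_le_of_lt ?_ hnum
    have h3 : Ex (fun c : Finset (Fin n) → Fin M => ((Dec k τ (Pc H c) \ H).card : ℝ)) +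
          ((n : ℝ) ^ 2 * Ex (fun c : Finset (Fin n) → Fin M => ((Uc H c).card : ℝ)) +
            Ex (fun c : Finset (Fin n) → Fin M => ((Lc H τ c).card : ℝ))) ≤
        (H.card : ℝ) * ((n : ℝ) ^ 2 * ((1 + 1 / (2 * (M : ℝ))) ^ τ)⁻¹ +
      (n : ℝ) ^ 2 * (1 - 1 / (M : ℝ)) ^ k + 2 ^ τ * (1 - 1 / (2 * (M : ℝ))) ^ k) := by
      have h4 : (n : ℝ) ^ 2 * Ex (fun c : Finset (Fin n) → Fin M => ((Uc H c).card : ℝ)) ≤
          (n : ℝ) ^ 2 * ((H.card : ℝ) * (1 - 1 / (M : ℝ)) ^ k) :=
        mul_le_mul_of_nonneg_left hU (by positivity)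
      calc _ ≤ (H.card : ℝ) * ((n : ℝ) ^ 2 * ((1 + 1 / (2 * (M : ℝ))) ^ τ)⁻¹) +
            ((n : ℝ) ^ 2 * ((H.card : ℝ) * (1 - 1 / (M : ℝ)) ^ k) +
              (H.card : ℝ) * (2 ^ τ * (1 - 1 / (2 * (M : ℝ))) ^ k)) :=
            add_le_add hD (add_le_add h4 hL)
        _ = _ := by ring
    have h5 : (64 / (H.card : ℝ)) * (Ex (fun c : Finset (Fin n) → Fin M => ((Dec k τ (Pc H c) \ H).card : ℝ)) +
          ((n : ℝ) ^ 2 * Ex (fun c : Finset (Fin n) → Fin M => ((Uc H c).card : ℝ)) +
            Ex (fun c : Finset (Fin n) → Fin M => ((Lc H τ c).card : ℝ)))) ≤ (64 / (H.card : ℝ)) *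
        ((H.card : ℝ) * ((n : ℝ) ^ 2 * ((1 + 1 / (2 * (M : ℝ))) ^ τ)⁻¹ +
      (n : ℝ) ^ 2 * (1 - 1 / (M : ℝ)) ^ k + 2 ^ τ * (1 - 1 / (2 * (M : ℝ))) ^ k)) :=
      mul_le_mul_of_nonneg_left h3 (by positivity)
    have h6 : (64 / (H.card : ℝ)) *
        ((H.card : ℝ) * ((n : ℝ) ^ 2 * ((1 + 1 / (2 * (M : ℝ))) ^ τ)⁻¹ +
      (n : ℝ) ^ 2 * (1 - 1 / (M : ℝ)) ^ k + 2 ^ τ * (1 - 1 / (2 * (M : ℝ))) ^ k)) =
        64 * ((n : ℝ) ^ 2 * ((1 + 1 / (2 * (M : ℝ))) ^ τ)⁻¹ +
      (n : ℝ) ^ 2 * (1 - 1 / (M : ℝ)) ^ k + 2 ^ τ * (1 - 1 / (2 * (M : ℝ))) ^ k) := by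
      field_simp
    rw [h6] at h5
    linarith
  obtain ⟨c, hc⟩ := exists_lt_of_Ex_lt hM hΘ
  -- consequences
  have hx0 : (0 : ℝ) ≤ (M / (4 * (H.card : ℝ))) * (Pc H c).card := by positivity
  have hy0 : (0 : ℝ) ≤ (64 / (H.card : ℝ)) *
      (((Dec k τ (Pc H c) \ H).card : ℝ) + ((n : ℝ) ^ 2 * (Uc H c).card + (Lc H τ c).card)) := by
    positivity
  have hcP : M * (Pc H c).card ≤ 4 * H.card := by
    have h1 : (M / (4 * (H.card : ℝ))) * (Pc H c).card < 1 := by
      have := hc
      simp only [Θ] at this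
      linarith
    have h2 : (M : ℝ) * (Pc H c).card < 4 * H.card := by
      have h3 : (M / (4 * (H.card : ℝ))) * (Pc H c).card =
          ((M : ℝ) * (Pc H c).card) / (4 * H.card) := by ring
      rw [h3, div_lt_one (by positivity)] at h1
      exact h1
    have h3 : M * (Pc H c).card < 4 * H.card := by exact_mod_cast h2
    exact h3.le
  have hcR : 64 * ((Dec k τ (Pc H c) \ H).card + (n ^ 2 * (Uc H c).card + (Lc H τ c).card)) ≤
      H.card := by
    have h1 : (64 / (H.card : ℝ)) *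
      (((Dec k τ (Pc H c) \ H).card : ℝ) + ((n : ℝ) ^ 2 * (Uc H c).card + (Lc H τ c).card)) < 1 := by
      have := hc
      simp only [Θ] at this
      linarith
    have h2 : 64 * (((Dec k τ (Pc H c) \ H).card : ℝ) +
        ((n : ℝ) ^ 2 * (Uc H c).card + (Lc H τ c).card)) < H.card := by
      rw [div_mul_eq_mul_div, div_lt_one hF] at h1
      exact h1
    have h3 : 64 * ((Dec k τ (Pc H c) \ H).card + (n ^ 2 * (Uc H c).card + (Lc H τ c).card)) <
      H.card := by exact_mod_cast h2
    exact h3.le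
  have hPH : Pc H c ⊆ H := Finset.filter_subset _ _
  have hUH : Uc H c ⊆ H := Finset.filter_subset _ _
  refine ⟨Pc H c ∪ Uc H c, Finset.union_subset hPH hUH, ?_, ?_, ?_, ?_⟩
  · have h1 : M * (Uc H c).card ≤ H.card := by
      calc M * (Uc H c).card ≤ (64 * n ^ 2) * (Uc H c).card := Nat.mul_le_mul_right _ hMn
        _ = 64 * (n ^ 2 * (Uc H c).card) := by ring
        _ ≤ 64 * ((Dec k τ (Pc H c) \ H).card + (n ^ 2 * (Uc H c).card + (Lc H τ c).card)) := by
            apply Nat.mul_le_mul_left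
            omega
        _ ≤ _ := hcR
    calc M * (Pc H c ∪ Uc H c).card ≤ M * ((Pc H c).card + (Uc H c).card) :=
          Nat.mul_le_mul_left _ (Finset.card_union_le _ _)
      _ = M * (Pc H c).card + M * (Uc H c).card := by ring
      _ ≤ 5 * H.card := by omega
  · have hsub : Dec k τ (Pc H c ∪ Uc H c) \ H ⊆ (Dec k τ (Pc H c) \ H) ∪ swaps (Uc H c) := by
      intro g hg
      rw [Finset.mem_sdiff] at hg
      obtain ⟨hgD, hgH⟩ := hg
      have hD := mem_Dec.1 hgD
      rw [Finset.mem_union]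
      by_cases hs : g ∈ swaps (Uc H c)
      · exact Or.inr hs
      · left
        rw [Finset.mem_sdiff]
        refine ⟨?_, hgH⟩
        have hdg : ∀ x ∈ g, dg (Pc H c ∪ Uc H c) g x = dg (Pc H c) g x := by
          intro x hx
          unfold dg
          congr 1
          ext e
          simp only [Finset.mem_filter, Finset.mem_union]
          constructor
          · rintro ⟨h1 | h1, h2⟩
            · exact ⟨h1, h2⟩
            · exact absurd (mem_swaps (Uc H c) g e h1 hD.1 (h.card e (hUH h1)) x hx h2) hs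
          · rintro ⟨h1, h2⟩
            exact ⟨Or.inl h1, h2⟩
        rw [mem_Dec]
        refine ⟨hD.1, fun h1 => hD.2.1 (Finset.mem_union_left _ h1), ?_, ?_⟩
        · intro x hx
          rw [← hdg x hx]
          exact hD.2.2.1 x hx
        · have h1 : g.filter (fun x => dg (Pc H c) g x = 1) =
              g.filter (fun x => dg (Pc H c ∪ Uc H c) g x = 1) := by
            refine Finset.filter_congr fun x hx => ?_
            rw [hdg x hx]
          rw [h1]
          exact hD.2.2.2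
    have h1 := (Finset.card_le_card hsub).trans (Finset.card_union_le _ _)
    have h2 := card_swaps (Uc H c)
    have h3 : (Dec k τ (Pc H c ∪ Uc H c) \ H).card ≤
        (Dec k τ (Pc H c) \ H).card + n ^ 2 * (Uc H c).card := by
      rw [mul_comm (n ^ 2)]
      omega
    omega
  · have hsub : H \ ((Pc H c ∪ Uc H c) ∪ Dec k τ (Pc H c ∪ Uc H c)) ⊆ Lc H τ c := by
      intro f hf
      rw [Finset.mem_sdiff, Finset.mem_union, not_or] at hf
      obtain ⟨hfH, hfP, hfD⟩ := hf
      unfold Lc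
      rw [Finset.mem_filter]
      refine ⟨hfH, ?_⟩
      by_contra hX
      rw [not_lt] at hX
      apply hfD
      rw [mem_Dec]
      have hle : ∀ x ∈ f, dg (Pc H c ∪ Uc H c) f x ≤ 1 := by
        intro x hx
        unfold dg
        have h1 : (Pc H c ∪ Uc H c).filter (fun e => f.erase x ⊆ e) ⊆ {opp H f x} := by
          intro e he
          rw [Finset.mem_filter] at he
          have heH : e ∈ H := (Finset.union_subset hPH hUH) he.1
          have h2 : e ∈ H.filter (fun e => f.erase x ⊆ e) := Finset.mem_filter.2 ⟨heH, he.2⟩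
          rw [(h.opp_spec f hfH x hx).2.2.2] at h2
          simp only [Finset.mem_insert, Finset.mem_singleton] at h2 ⊢
          rcases h2 with rfl | h2
          · exact absurd he.1 hfP
          · exact h2
        exact (Finset.card_le_card h1).trans (by simp)
      refine ⟨h.card f hfH, hfP, hle, hX.trans ?_⟩
      unfold Xc
      apply Finset.card_le_card
      intro x hx
      rw [Finset.mem_filter] at hx ⊢
      refine ⟨hx.1, le_antisymm (hle x hx.1) ?_⟩
      unfold dg
      obtain ⟨h1, _, h3, _⟩ := h.opp_spec f hfH x hx.1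
      apply Finset.card_pos.2
      exact ⟨opp H f x, Finset.mem_filter.2 ⟨Finset.mem_union_left _
        (Finset.mem_filter.2 ⟨h1, hx.2⟩), h3⟩⟩
    have h1 := Finset.card_le_card hsub
    omega
  · intro f hf
    by_cases h1 : (c f).val = 0
    · refine ⟨f, Finset.mem_union_left _ (Finset.mem_filter.2 ⟨hf, h1⟩), by simp, by simp⟩
    · by_cases h2 : ∃ x ∈ f, (c (opp H f x)).val = 0
      · obtain ⟨x, hx, hx0⟩ := h2
        obtain ⟨h3, h4, h5, _⟩ := h.opp_spec f hf x hx
        refine ⟨opp H f x, Finset.mem_union_left _ (Finset.mem_filter.2 ⟨h3, hx0⟩), ?_, ?_⟩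
        · have : f \ opp H f x ⊆ {x} := by
            intro y hy
            rw [Finset.mem_sdiff] at hy
            rw [Finset.mem_singleton]
            by_contra hne
            exact hy.2 (h5 (Finset.mem_erase.2 ⟨hne, hy.1⟩))
          exact (Finset.card_le_card this).trans (by simp)
        · have : opp H f x \ f ⊆ opp H f x \ f.erase x :=
            Finset.sdiff_subset_sdiff subset_rfl (Finset.erase_subset _ _)
          refine (Finset.card_le_card this).trans ?_
          rw [Finset.card_sdiff_of_subset h5, Finset.card_erase_of_mem hx, h.card f hf,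
            h.card _ h3]
          omega
      · push Not at h2
        exact ⟨f, Finset.mem_union_right _ (Finset.mem_filter.2 ⟨hf, h1, h2⟩), by simp, by simp⟩

end Pool.Agent.Helper490_Sph
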