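import Pool.Agent.Helper490_Sph.TopA

set_option autoImplicit false

/-! Triangulated manifolds of arbitrary dimension: strong connectivity. This is the
general-dimensional version of `Helper585.Wk.Top1b`, `Top1c`, `Top1d` (dimension 4). -/

namespace Pool.Agent.Helper490_Sph

open Pool.Agent.Helper611

theorem dim_of_charts {n d : ℕ} (K : ZBase.Cx (Fin n)) (h : Charts d K) :
    ∀ σ ∈ K.faces, σ.card ≤ d + 1 := by
  intro σ hσ
  refine UMan.dim_le (n := d) K (id : EuclideanSpace ℝ (Fin d) → _) Topology.IsEmbedding.id
    Set.univ isOpen_univ (by rw [Set.range_id]) ?_ h σ hσ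
  rintro U _ ⟨a, ha⟩
  exact ⟨a, ha, Set.mem_univ _⟩

theorem lacy_of_charts {n d : ℕ} (K : ZBase.Cx (Fin n)) (h : Charts d K) : LAcy d K := by
  intro τ k hτ hk
  exact UMan.acy_E K h τ hτ k hk

/-- purity -/
theorem pure_of_lacy {n d : ℕ} (K : ZBase.Cx (Fin n)) (h : LAcy d K)
    (hd : ∀ σ ∈ K.faces, σ.card ≤ d + 1)
    (σ : Finset (Fin n)) (hσ : σ ∈ K.faces) (hne : σ.Nonempty) :
    ∃ F ∈ K.faces, σ ⊆ F ∧ F.card = d + 1 := by
  classical
  have key : ∀ m : ℕ, ∀ s : Finset (Fin n), s ∈ K.faces → s.Nonempty → d + 1 - s.card = m →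
      ∃ F ∈ K.faces, s ⊆ F ∧ F.card = d + 1 := by
    intro m
    induction m with
    | zero =>
      intro s hs _ h5
      exact ⟨s, hs, subset_rfl, by have := hd s hs; omega⟩
    | succ m ih =>
      intro s hs hsn h5
      have hc4 : s.card ≤ d := by omega
      obtain ⟨b, hb1, hb2⟩ := h s s.card hsn hc4 (Pi.single s 1) (by
        intro t ht
        by_cases hts : t = s
        · subst hts
          exact ⟨hs, subset_rfl, rfl⟩
        · exact absurd (Pi.single_eq_of_ne hts _) ht) (by
        intro ρ hρ
        refine Finset.sum_eq_zero fun x hx => ?_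
        have hx' : x ∉ ρ := Finset.mem_compl.1 hx
        have hne : insert x ρ ≠ s := by
          intro he
          exact hx' (hρ (he ▸ Finset.mem_insert_self x ρ))
        rw [Pi.single_eq_of_ne hne, smul_zero])
      have h1 : ZBase.bd b s = 1 := by
        rw [hb2 s subset_rfl, Pi.single_eq_same]
      have h2 : ∃ x ∈ sᶜ, b (insert x s) ≠ 0 := by
        by_contra hcon
        push Not at hcon
        have : ZBase.bd b s = 0 := Finset.sum_eq_zero fun x hx => by rw [hcon x hx, smul_zero]
        rw [h1] at this
        exact one_ne_zero this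
      obtain ⟨x, hx, hbx⟩ := h2
      obtain ⟨h3, h4, h6⟩ := hb1 _ hbx
      obtain ⟨F, hF, hsF, hF5⟩ := ih (insert x s) h3 (Finset.insert_nonempty x s) (by omega)
      exact ⟨F, hF, (Finset.subset_insert x s).trans hsF, hF5⟩
  exact key _ σ hσ hne rfl

open ZBase in
theorem star_conn_single {n : ℕ} (σ : Finset (Fin n)) (v : Fin n) (hv : v ∉ σ) (f : Fin n → ℤ) :
    ∑ x ∈ σᶜ, f x * (if insert x σ = insert v σ then f v else 0) = f v * f v := by
  rw [Finset.sum_eq_single v]
  · simp
  · intro x hx hxv
    rw [if_neg, mul_zero]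
    intro h
    have h1 : x ∈ insert v σ := h ▸ Finset.mem_insert_self x σ
    rcases Finset.mem_insert.1 h1 with h2 | h2
    · exact hxv h2
    · exact Finset.mem_compl.1 hx h2
  · intro h
    exact absurd (Finset.mem_compl.2 hv) h

open ZBase in
/-- stars of nonempty faces are strongly connected -/
theorem star_conn {n d : ℕ} (K : ZBase.Cx (Fin n)) (h : LAcy d K)
    (hd : ∀ σ ∈ K.faces, σ.card ≤ d + 1)
    (hpure : ∀ σ ∈ K.faces, σ.Nonempty → ∃ F ∈ K.faces, σ ⊆ F ∧ F.card = d + 1)
    (htwo : ∀ t ∈ K.faces, t.card = d → (fac d K t).card = 2)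
    (τ : Finset (Fin n)) (hτ : τ.Nonempty)
    (Z : Finset (Finset (Fin n))) (hZ : Z ⊆ fac d K τ)
    (hZe : ∀ t : Finset (Fin n), t.card = d → τ ⊆ t → Even (Z.filter (fun F => t ⊆ F)).card) :
    Z = ∅ ∨ Z = fac d K τ := by
  classical
  have claim : ∀ m : ℕ, ∀ σ ∈ K.faces, τ ⊆ σ → σ.card + m = d + 1 →
      (∀ F ∈ fac d K σ, F ∈ Z) ∨ (∀ F ∈ fac d K σ, F ∉ Z) := by
    intro m
    induction m using Nat.strong_induction_on with
    | _ m ih =>
    intro σ hσ hτσ hcard
    rcases Nat.lt_or_ge m 2 with hm | hm
    · rcases Nat.lt_or_ge m 1 with hm0 | hm1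
      · -- `card σ = d + 1`
        have hc : σ.card = d + 1 := by omega
        have : ∀ F ∈ fac d K σ, F = σ := by
          intro F hF
          rw [mem_fac] at hF
          exact (Finset.eq_of_subset_of_card_le hF.2.1 (by omega)).symm
        by_cases hs : σ ∈ Z
        · left; intro F hF; rw [this F hF]; exact hs
        · right; intro F hF; rw [this F hF]; exact hs
      · -- `card σ = d`
        have hc : σ.card = d := by omega
        have h2 := htwo σ hσ hc
        have he := hZe σ hc hτσ
        have hsub : Z.filter (fun F => σ ⊆ F) ⊆ fac d K σ := by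
          intro F hF
          rw [Finset.mem_filter] at hF
          have := hZ hF.1
          rw [mem_fac] at this ⊢
          exact ⟨this.1, hF.2, this.2.2⟩
        have hle := Finset.card_le_card hsub
        rw [h2] at hle
        obtain ⟨r, hr⟩ := he
        have : (Z.filter (fun F => σ ⊆ F)).card = 0 ∨ (Z.filter (fun F => σ ⊆ F)).card = 2 := by omega
        rcases this with h0 | h0
        · right
          intro F hF hFZ
          rw [Finset.card_eq_zero] at h0
          have : F ∈ Z.filter (fun F => σ ⊆ F) :=
            Finset.mem_filter.2 ⟨hFZ, ((mem_fac K).1 hF).2.1⟩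
          rw [h0] at this
          exact absurd this (Finset.notMem_empty F)
        · left
          intro F hF
          have := Finset.eq_of_subset_of_card_le hsub (by omega)
          rw [← this] at hF
          exact (Finset.mem_filter.1 hF).1
    · by_contra hcon
      push Not at hcon
      obtain ⟨⟨F2, hF2, hF2Z⟩, ⟨F1, hF1, hF1Z⟩⟩ := hcon
      have hσne : σ.Nonempty := hτ.mono hτσ
      -- monotonicity of `fac`
      have hfac : ∀ {a b : Finset (Fin n)}, a ⊆ b → fac d K b ⊆ fac d K a := by
        intro a b hab F hF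
        rw [mem_fac] at hF ⊢
        exact ⟨hF.1, hab.trans hF.2.1, hF.2.2⟩
      let T : Finset (Fin n) → Prop := fun ρ => ∃ F ∈ fac d K ρ, F ∈ Z
      have hTm : ∀ {a b : Finset (Fin n)}, a ⊆ b → T b → T a := by
        rintro a b hab ⟨F, hF, hFZ⟩
        exact ⟨F, hfac hab hF, hFZ⟩
      -- for faces with `card σ + 1` elements the type is unambiguous
      have htype : ∀ ρ ∈ K.faces, τ ⊆ ρ → ρ.card = σ.card + 1 → T ρ →
          ∀ F ∈ fac d K ρ, F ∈ Z := by
        intro ρ hρ hτρ hc hT
        rcases ih (m - 1) (by omega) ρ hρ hτρ (by omega) with h1 | h1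
        · exact h1
        · obtain ⟨F, hF, hFZ⟩ := hT
          exact absurd hFZ (h1 F hF)
      have hx : ∀ F ∈ fac d K σ, ∃ v ∈ F, v ∉ σ := by
        intro F hF
        rw [mem_fac] at hF
        by_contra hcon
        push Not at hcon
        have := Finset.card_le_card (show F ⊆ σ from hcon)
        omega
      obtain ⟨v, hvF, hv⟩ := hx F1 hF1
      obtain ⟨w, hwF, hw⟩ := hx F2 hF2
      have hs1F : insert v σ ⊆ F1 :=
        Finset.insert_subset hvF ((mem_fac K).1 hF1).2.1
      have hs2F : insert w σ ⊆ F2 :=
        Finset.insert_subset hwF ((mem_fac K).1 hF2).2.1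
      have hs1 : insert v σ ∈ K.faces := K.down F1 ((mem_fac K).1 hF1).1 _ hs1F
      have hs2 : insert w σ ∈ K.faces := K.down F2 ((mem_fac K).1 hF2).1 _ hs2F
      have hT1 : T (insert v σ) :=
        ⟨F1, (mem_fac K).2 ⟨((mem_fac K).1 hF1).1, hs1F, ((mem_fac K).1 hF1).2.2⟩,
          hF1Z⟩
      have hc2 : (insert w σ).card = σ.card + 1 := Finset.card_insert_of_notMem hw
      have hc1 : (insert v σ).card = σ.card + 1 := Finset.card_insert_of_notMem hv
      have hT2 : ¬ T (insert w σ) := by
        intro hT
        have := htype _ hs2 (hτσ.trans (Finset.subset_insert _ _)) hc2 hT F2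
          ((mem_fac K).2 ⟨((mem_fac K).1 hF2).1, hs2F, ((mem_fac K).1 hF2).2.2⟩)
        exact hF2Z this
      have hne : insert v σ ≠ insert w σ := by
        intro heq
        rw [heq] at hT1
        exact hT2 hT1
      -- the cycle
      let c : Finset (Fin n) → ℤ := fun ρ =>
        (if ρ = insert v σ then sgn v σ else 0) - (if ρ = insert w σ then sgn w σ else 0)
      have hcsupp : ∀ ρ, c ρ ≠ 0 → ρ ∈ K.faces ∧ σ ⊆ ρ ∧ ρ.card = σ.card + 1 := by
        intro ρ hρ
        by_cases e1 : ρ = insert v σ
        · rw [e1]; exact ⟨hs1, Finset.subset_insert _ _, hc1⟩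
        · by_cases e2 : ρ = insert w σ
          · rw [e2]; exact ⟨hs2, Finset.subset_insert _ _, hc2⟩
          · exact absurd (by simp only [c, if_neg e1, if_neg e2, sub_zero]) hρ
      have hcyc : ∀ ρ, σ ⊆ ρ → bd c ρ = 0 := by
        intro ρ hρ
        by_cases hρσ : ρ = σ
        · subst hρσ
          unfold bd
          simp only [c, smul_eq_mul, mul_sub, Finset.sum_sub_distrib]
          rw [star_conn_single ρ v hv (fun x => sgn x ρ), star_conn_single ρ w hw (fun x => sgn x ρ),
            sgn_mul_self, sgn_mul_self, sub_self]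
        · unfold bd
          refine Finset.sum_eq_zero fun x hx => ?_
          have hcx : c (insert x ρ) = 0 := by
            by_contra hcon
            have h3 := (hcsupp _ hcon).2.2
            rw [Finset.card_insert_of_notMem (Finset.mem_compl.1 hx)] at h3
            exact hρσ (Finset.eq_of_subset_of_card_le hρ (by omega)).symm
          rw [hcx, smul_zero]
      obtain ⟨b, hb, hbc⟩ := h σ (σ.card + 1) hσne (by omega) c hcsupp hcyc
      let b2 : Finset (Fin n) → ℤ := fun ρ => if T ρ then b ρ else 0
      have hb2 : ∀ x ∈ σᶜ, bd b2 (insert x σ) = if insert x σ = insert v σ then sgn v σ else 0 := by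
        intro x hx
        have hxσ := Finset.mem_compl.1 hx
        have hcx : (insert x σ).card = σ.card + 1 := Finset.card_insert_of_notMem hxσ
        have hσx : σ ⊆ insert x σ := Finset.subset_insert _ _
        by_cases hf : insert x σ ∈ K.faces
        · have e1 : bd b2 (insert x σ) = if T (insert x σ) then bd b (insert x σ) else 0 := by
            unfold bd
            have hterm : ∀ y ∈ (insert x σ)ᶜ, sgn y (insert x σ) • b2 (insert y (insert x σ)) =
                if T (insert x σ) then sgn y (insert x σ) • b (insert y (insert x σ)) else 0 := by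
              intro y hy
              by_cases hby : b (insert y (insert x σ)) = 0
              · simp only [b2, hby]
                simp
              · have hyf := (hb _ hby).1
                have hiff : T (insert y (insert x σ)) ↔ T (insert x σ) := by
                  constructor
                  · exact hTm (Finset.subset_insert _ _)
                  · intro hT
                    obtain ⟨F, hF, hyF, hF5⟩ := hpure _ hyf (Finset.insert_nonempty _ _)
                    have hFf : F ∈ fac d K (insert y (insert x σ)) :=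
                      (mem_fac K).2 ⟨hF, hyF, hF5⟩
                    exact ⟨F, hFf, htype _ hf (hτσ.trans hσx) hcx hT F
                      (hfac (Finset.subset_insert _ _) hFf)⟩
                simp only [b2]
                by_cases hT : T (insert x σ)
                · rw [if_pos hT, if_pos (hiff.2 hT)]
                · rw [if_neg hT, if_neg (fun h => hT (hiff.1 h)), smul_zero]
            rw [Finset.sum_congr rfl hterm]
            by_cases hT : T (insert x σ)
            · simp only [if_pos hT]
            · simp only [if_neg hT, Finset.sum_const_zero]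
          rw [e1, hbc _ hσx]
          by_cases ev : insert x σ = insert v σ
          · rw [ev, if_pos hT1, if_pos rfl]
            simp only [c, if_pos, if_neg hne, sub_zero]
          · rw [if_neg ev]
            by_cases hT : T (insert x σ)
            · have ew : insert x σ ≠ insert w σ := fun heq => hT2 (heq ▸ hT)
              rw [if_pos hT]
              simp only [c, if_neg ev, if_neg ew, sub_zero]
            · rw [if_neg hT]
        · have hnv : insert x σ ≠ insert v σ := fun heq => hf (by rw [heq]; exact hs1)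
          rw [if_neg hnv]
          unfold bd
          refine Finset.sum_eq_zero fun y hy => ?_
          have hby : b (insert y (insert x σ)) = 0 := by
            by_contra hcon
            exact hf (K.down _ (hb _ hcon).1 _ (Finset.subset_insert _ _))
          simp only [b2, hby, ite_self, smul_zero]
      have hfin := bd_bd b2 σ
      have e3 : bd (bd b2) σ = ∑ x ∈ σᶜ, sgn x σ * (if insert x σ = insert v σ then sgn v σ else 0) := by
        conv_lhs => unfold bd
        exact Finset.sum_congr rfl fun x hx => by
          have := hb2 x hx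
          unfold bd at this
          rw [this, smul_eq_mul]
      rw [e3, star_conn_single σ v hv (fun x => sgn x σ), sgn_mul_self] at hfin
      exact one_ne_zero hfin
  by_cases hτf : τ ∈ K.faces
  · rcases claim (d + 1 - τ.card) τ hτf subset_rfl (by have := hd τ hτf; omega) with h1 | h1
    · right
      exact Finset.Subset.antisymm hZ h1
    · left
      rw [Finset.eq_empty_iff_forall_notMem]
      intro F hF
      exact h1 F (hZ hF) hF
  · left
    rw [Finset.eq_empty_iff_forall_notMem]
    intro F hF
    have := (mem_fac K).1 (hZ hF)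
    exact hτf (K.down F this.1 τ this.2.1)

theorem nonempty_of_supp {n : ℕ} (K : ZBase.Cx (Fin n)) (x : Fin n → ℝ)
    (hx : x ∈ ZBase.realization K)
    (σ : Finset (Fin n)) (hσ : ∀ v, v ∉ σ → x v = 0) : σ.Nonempty := by
  by_contra h
  rw [Finset.not_nonempty_iff_eq_empty] at h
  subst h
  have h1 := hx.2.1
  have h2 : ∑ v, x v = 0 := Finset.sum_eq_zero (fun v _ => hσ v (Finset.notMem_empty v))
  rw [h2] at h1
  exact zero_ne_one h1

theorem vertex_mem {n : ℕ} (K : ZBase.Cx (Fin n)) (F : Finset (Fin n)) (hF : F ∈ K.faces)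
    (v : Fin n) (hv : v ∈ F) : (Pi.single v 1 : Fin n → ℝ) ∈ ZBase.realization K := by
  refine ⟨?_, ?_, F, hF, ?_⟩
  · intro u
    by_cases h : u = v
    · subst h; simp
    · simp [Pi.single_eq_of_ne h]
  · simp
  · intro u hu
    have : u ≠ v := fun h => hu (h ▸ hv)
    simp [Pi.single_eq_of_ne this]

/-- Strong connectivity: a nonempty mod 2 cycle of facets consists of all facets. -/
theorem conn_of_charts {n d : ℕ} (hd0 : 0 < d) (K : ZBase.Cx (Fin n)) (h : Charts d K)
    (hc : ConnectedSpace (ZBase.realization K))
    (Z : Finset (Finset (Fin n))) (hZ : Z ⊆ K.faces.filter (fun F => F.card = d + 1))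
    (hZne : Z.Nonempty)
    (hZe : ∀ t : Finset (Fin n), t.card = d → Even (Z.filter (fun F => t ⊆ F)).card) :
    Z = K.faces.filter (fun F => F.card = d + 1) := by
  classical
  have hdim := dim_of_charts K h
  have hlacy := lacy_of_charts K h
  have hpure := pure_of_lacy K hlacy hdim
  have htwo := two_facets hd0 K h hdim
  have hstar := star_conn K hlacy hdim hpure htwo
  -- all or none of the facets containing a nonempty face
  have hall : ∀ τ : Finset (Fin n), τ.Nonempty →
      Z.filter (fun F => τ ⊆ F) = ∅ ∨ Z.filter (fun F => τ ⊆ F) = fac d K τ := by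
    intro τ hτ
    apply hstar τ hτ
    · intro F hF
      rw [Finset.mem_filter] at hF
      have h1 := hZ hF.1
      rw [Finset.mem_filter] at h1
      rw [mem_fac]
      exact ⟨h1.1, hF.2, h1.2⟩
    · intro t ht hτt
      have : (Z.filter (fun F => τ ⊆ F)).filter (fun F => t ⊆ F) = Z.filter (fun F => t ⊆ F) := by
        ext F
        simp only [Finset.mem_filter]
        constructor
        · rintro ⟨⟨h1, _⟩, h2⟩
          exact ⟨h1, h2⟩
        · rintro ⟨h1, h2⟩
          exact ⟨⟨h1, hτt.trans h2⟩, h2⟩
      rw [this]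
      exact hZe t ht
  let C : Finset (Fin n) → Set (ZBase.realization K) := fun F => {x | ∀ v, v ∉ F → x.1 v = 0}
  have hCcl : ∀ F, IsClosed (C F) := by
    intro F
    have : C F = ⋂ v, ⋂ (_ : v ∉ F), {x : ZBase.realization K | x.1 v = 0} := by
      ext x
      simp [C]
    rw [this]
    apply isClosed_iInter
    intro v
    apply isClosed_iInter
    intro _
    exact isClosed_eq ((continuous_apply v).comp continuous_subtype_val) continuous_const
  have hCne : ∀ F ∈ K.faces, F.card = d + 1 → (C F).Nonempty := by
    intro F hF h5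
    obtain ⟨v, hv⟩ := Finset.card_pos.mp (by rw [h5]; omega : 0 < F.card)
    refine ⟨⟨Pi.single v 1, vertex_mem K F hF v hv⟩, ?_⟩
    intro u hu
    have : u ≠ v := fun h => hu (h ▸ hv)
    simp [Pi.single_eq_of_ne this]
  apply Finset.Subset.antisymm hZ
  intro F2 hF2
  by_contra hF2Z
  obtain ⟨F1, hF1⟩ := hZne
  have hF1' := hZ hF1
  rw [Finset.mem_filter] at hF1' hF2
  let A : Set (ZBase.realization K) := ⋃ F ∈ Z, C F
  let B : Set (ZBase.realization K) := ⋃ F ∈ (K.faces.filter (fun F => F.card = d + 1)) \ Z, C F
  have hA : IsClosed A := isClosed_biUnion_finset (fun F _ => hCcl F)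
  have hB : IsClosed B := isClosed_biUnion_finset (fun F _ => hCcl F)
  have hcov : (Set.univ : Set (ZBase.realization K)) ⊆ A ∪ B := by
    intro x _
    obtain ⟨τ, hτ, hτx⟩ := x.2.2.2
    obtain ⟨F, hF, hτF, h5⟩ := hpure τ hτ (nonempty_of_supp K x.1 x.2 τ hτx)
    have hx : x ∈ C F := fun v hv => hτx v (fun h => hv (hτF h))
    by_cases hFZ : F ∈ Z
    · exact Or.inl (Set.mem_biUnion hFZ hx)
    · refine Or.inr (Set.mem_biUnion
        (show F ∈ ((K.faces.filter (fun F => F.card = d + 1)) \ Z : Finset _) from ?_) hx)
      rw [Finset.mem_sdiff, Finset.mem_filter]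
      exact ⟨⟨hF, h5⟩, hFZ⟩
  have hAne : ((Set.univ : Set (ZBase.realization K)) ∩ A).Nonempty := by
    obtain ⟨x, hx⟩ := hCne F1 hF1'.1 hF1'.2
    exact ⟨x, trivial, Set.mem_biUnion hF1 hx⟩
  have hBne : ((Set.univ : Set (ZBase.realization K)) ∩ B).Nonempty := by
    obtain ⟨x, hx⟩ := hCne F2 hF2.1 hF2.2
    refine ⟨x, trivial, Set.mem_biUnion
      (show F2 ∈ ((K.faces.filter (fun F => F.card = d + 1)) \ Z : Finset _) from ?_) hx⟩
    rw [Finset.mem_sdiff, Finset.mem_filter]
    exact ⟨hF2, hF2Z⟩
  obtain ⟨x, _, hxA, hxB⟩ := isPreconnected_closed_iff.mp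
    (isPreconnected_univ (α := ZBase.realization K)) A B hA hB hcov hAne hBne
  simp only [A, B, Set.mem_iUnion] at hxA hxB
  obtain ⟨G1, hG1, hx1⟩ := hxA
  obtain ⟨G2, hG2, hx2⟩ := hxB
  rw [Finset.mem_sdiff, Finset.mem_filter] at hG2
  let τ : Finset (Fin n) := Finset.univ.filter (fun v => x.1 v ≠ 0)
  have hτne : τ.Nonempty := by
    apply nonempty_of_supp K x.1 x.2
    intro v hv
    by_contra hne
    exact hv (by simp [τ, hne])
  have hτ1 : τ ⊆ G1 := by
    intro v hv
    by_contra hne
    have := hx1 v hne
    simp only [τ, Finset.mem_filter, Finset.mem_univ, true_and] at hv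
    exact hv this
  have hτ2 : τ ⊆ G2 := by
    intro v hv
    by_contra hne
    have := hx2 v hne
    simp only [τ, Finset.mem_filter, Finset.mem_univ, true_and] at hv
    exact hv this
  rcases hall τ hτne with h0 | h0
  · have : G1 ∈ Z.filter (fun F => τ ⊆ F) := Finset.mem_filter.mpr ⟨hG1, hτ1⟩
    rw [h0] at this
    exact Finset.notMem_empty _ this
  · have : G2 ∈ fac d K τ := by
      rw [mem_fac]
      exact ⟨hG2.1.1, hτ2, hG2.1.2⟩
    rw [← h0, Finset.mem_filter] at this
    exact hG2.2 this.1

end Pool.Agent.Helper490_Sph
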