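import Pool.Agent.Helper490_Sph.TopB

set_option autoImplicit false

/-! From a homeomorphism between the union of geometric simplices and a sphere to the
combinatorial properties of the family of facets. -/

namespace Pool.Agent.Helper490_Sph

open Pool.Agent.Helper611

/-- the underlying space of a family of simplices with vertices in `Fin n` -/
noncomputable def geo {n : ℕ} (H : Finset (Finset (Fin n))) : Set (EuclideanSpace ℝ (Fin n)) :=
  ⋃ e ∈ H, convexHull ℝ
    ((fun v : Fin n => EuclideanSpace.single v (1 : ℝ)) '' (↑e : Set (Fin n)))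

/-- the complex generated by a family of finite sets -/
def cxOf {n : ℕ} (H : Finset (Finset (Fin n))) : ZBase.Cx (Fin n) where
  faces := (Finset.univ : Finset (Finset (Fin n))).filter (fun σ => σ = ∅ ∨ ∃ e ∈ H, σ ⊆ e)
  empty_mem := by simp
  down := by
    intro σ hσ τ hτ
    rw [Finset.mem_filter] at hσ ⊢
    refine ⟨Finset.mem_univ _, ?_⟩
    rcases hσ.2 with h | ⟨e, he, h⟩
    · left
      rw [h] at hτ
      exact Finset.subset_empty.1 hτ
    · right
      exact ⟨e, he, hτ.trans h⟩

theorem mem_cxOf {n : ℕ} (H : Finset (Finset (Fin n))) (σ : Finset (Fin n)) :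
    σ ∈ (cxOf H).faces ↔ σ = ∅ ∨ ∃ e ∈ H, σ ⊆ e := by
  unfold cxOf
  simp

theorem mem_simplex {n : ℕ} (e : Finset (Fin n)) (x : EuclideanSpace ℝ (Fin n)) :
    x ∈ convexHull ℝ ((fun v : Fin n => EuclideanSpace.single v (1 : ℝ)) '' (↑e : Set (Fin n))) ↔
      (∀ v, 0 ≤ x v) ∧ ∑ v, x v = 1 ∧ ∀ v, v ∉ e → x v = 0 := by
  constructor
  · intro h
    have hconv : Convex ℝ {x : EuclideanSpace ℝ (Fin n) |
        (∀ v, 0 ≤ x v) ∧ ∑ v, x v = 1 ∧ ∀ v, v ∉ e → x v = 0} := by
      intro x hx y hy a b ha hb hab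
      refine ⟨fun v => ?_, ?_, fun v hv => ?_⟩
      · simp only [PiLp.add_apply, PiLp.smul_apply, smul_eq_mul]
        exact add_nonneg (mul_nonneg ha (hx.1 v)) (mul_nonneg hb (hy.1 v))
      · simp only [PiLp.add_apply, PiLp.smul_apply, smul_eq_mul]
        rw [Finset.sum_add_distrib, ← Finset.mul_sum, ← Finset.mul_sum, hx.2.1, hy.2.1]
        linarith
      · simp only [PiLp.add_apply, PiLp.smul_apply, smul_eq_mul]
        rw [hx.2.2 v hv, hy.2.2 v hv]
        ring
    refine convexHull_min ?_ hconv h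
    rintro _ ⟨v, hv, rfl⟩
    refine ⟨fun u => ?_, ?_, fun u hu => ?_⟩
    · by_cases h : u = v
      · simp [h]
      · simp [h]
    · simp
    · have : u ≠ v := fun h => hu (h ▸ hv)
      simp [this]
  · rintro ⟨h0, h1, h2⟩
    have hx : x = ∑ v ∈ e, x v • (EuclideanSpace.single v (1 : ℝ) : EuclideanSpace ℝ (Fin n)) := by
      ext u
      simp only [PiLp.smul_apply, smul_eq_mul, WithLp.ofLp_sum, Finset.sum_apply, WithLp.ofLp_smul,
        Pi.smul_apply, EuclideanSpace.ofLp_single]
      by_cases hu : u ∈ e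
      · rw [Finset.sum_eq_single u]
        · simp
        · intro v _ hv
          simp [Pi.single_eq_of_ne hv.symm]
        · intro h; exact absurd hu h
      · rw [h2 u hu, Finset.sum_eq_zero]
        intro v hv
        have : u ≠ v := fun h => hu (h ▸ hv)
        simp [Pi.single_eq_of_ne this]
    rw [hx]
    have hs : ∑ v ∈ e, x v = 1 := by
      rw [← h1]
      exact Finset.sum_subset (Finset.subset_univ _) fun v _ hv => h2 v hv
    exact (convex_convexHull ℝ _).sum_mem (fun v _ => h0 v) hs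
      (fun v hv => subset_convexHull ℝ _ ⟨v, hv, rfl⟩)

theorem mem_geo {n : ℕ} (H : Finset (Finset (Fin n))) (x : EuclideanSpace ℝ (Fin n)) :
    x ∈ geo H ↔ (x.ofLp : Fin n → ℝ) ∈ ZBase.realization (cxOf H) := by
  unfold geo
  simp only [Set.mem_iUnion, mem_simplex]
  constructor
  · rintro ⟨e, he, h0, h1, h2⟩
    exact ⟨h0, h1, e, (mem_cxOf H e).2 (Or.inr ⟨e, he, subset_rfl⟩), h2⟩
  · rintro ⟨h0, h1, σ, hσ, h2⟩
    rcases (mem_cxOf H σ).1 hσ with h | ⟨e, he, hσe⟩
    · exfalso
      have : ∑ v, x.ofLp v = 0 := Finset.sum_eq_zero fun v _ => h2 v (by rw [h]; simp)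
      rw [h1] at this
      exact one_ne_zero this
    · exact ⟨e, he, h0, h1, fun v hv => h2 v fun h => hv (hσe h)⟩

/-- the two descriptions of the underlying space agree -/
noncomputable def geoHomeo {n : ℕ} (H : Finset (Finset (Fin n))) :
    geo H ≃ₜ ZBase.realization (cxOf H) where
  toFun x := ⟨x.1.ofLp, (mem_geo H x.1).1 x.2⟩
  invFun y := ⟨WithLp.toLp 2 y.1, (mem_geo H (WithLp.toLp 2 y.1)).2 y.2⟩
  left_inv x := rfl
  right_inv y := rfl
  continuous_toFun := by
    refine Continuous.subtype_mk ?_ _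
    exact (PiLp.continuous_ofLp 2 _).comp continuous_subtype_val
  continuous_invFun := by
    refine Continuous.subtype_mk ?_ _
    exact (PiLp.continuous_toLp 2 _).comp continuous_subtype_val

/-- The facets of a triangulated sphere of dimension `d ≥ 1` form a strongly connected closed
pseudomanifold. -/
theorem sphere_cpm {n d : ℕ} (hd : 0 < d) (H : Finset (Finset (Fin n)))
    (hcard : ∀ e ∈ H, e.card = d + 1)
    (φ : geo H ≃ₜ (Metric.sphere (0 : EuclideanSpace ℝ (Fin (d + 1))) 1)) :
    H.Nonempty ∧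
    (∀ S : Finset (Fin n), S.card = d → (∃ e ∈ H, S ⊆ e) → (H.filter (fun e => S ⊆ e)).card = 2) ∧
    (∀ Z : Finset (Finset (Fin n)), Z ⊆ H → Z.Nonempty →
      (∀ S : Finset (Fin n), S.card = d → Even (Z.filter (fun e => S ⊆ e)).card) → Z = H) := by
  classical
  let ψ : ZBase.realization (cxOf H) ≃ₜ (Metric.sphere (0 : EuclideanSpace ℝ (Fin (d + 1))) 1) :=
    (geoHomeo H).symm.trans φ
  have hfin : Fact (Module.finrank ℝ (EuclideanSpace ℝ (Fin (d + 1))) = d + 1) :=
    ⟨by simp⟩
  have hch : Charts d (cxOf H) := by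
    intro x
    refine ⟨ψ.toOpenPartialHomeomorph.trans
      (chartAt (EuclideanSpace ℝ (Fin d)) (ψ x)), ?_⟩
    simp
  have hconn : ConnectedSpace (ZBase.realization (cxOf H)) := by
    have h1 : ConnectedSpace (Metric.sphere (0 : EuclideanSpace ℝ (Fin (d + 1))) 1) := by
      rw [← isConnected_iff_connectedSpace]
      refine isConnected_sphere ?_ _ zero_le_one
      rw [← Module.finrank_eq_rank]
      simp only [finrank_euclideanSpace, Fintype.card_fin]
      exact_mod_cast (by omega : 1 < d + 1)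
    exact ψ.symm.surjective.connectedSpace ψ.symm.continuous
  have hfac : (cxOf H).faces.filter (fun F => F.card = d + 1) = H := by
    ext F
    rw [Finset.mem_filter, mem_cxOf]
    constructor
    · rintro ⟨h | ⟨e, he, hFe⟩, h5⟩
      · rw [h] at h5; simp at h5
      · have : F = e := Finset.eq_of_subset_of_card_le hFe (by rw [hcard e he, h5])
        rw [this]; exact he
    · intro hF
      exact ⟨Or.inr ⟨F, hF, subset_rfl⟩, hcard F hF⟩
  refine ⟨?_, ?_, ?_⟩
  · obtain ⟨x⟩ := hconn.toNonempty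
    obtain ⟨_, _, σ, hσ, h2⟩ := x.2
    rcases (mem_cxOf H σ).1 hσ with h | ⟨e, he, _⟩
    · exact absurd (nonempty_of_supp (cxOf H) x.1 x.2 σ h2) (by rw [h]; simp)
    · exact ⟨e, he⟩
  · intro S hS hSe
    have h1 := two_facets hd (cxOf H) hch (dim_of_charts _ hch) S
      ((mem_cxOf H S).2 (Or.inr hSe)) hS
    have h2 : fac d (cxOf H) S = H.filter (fun e => S ⊆ e) := by
      ext F
      rw [mem_fac, Finset.mem_filter]
      constructor
      · rintro ⟨h3, h4, h5⟩
        refine ⟨?_, h4⟩
        rw [← hfac, Finset.mem_filter]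
        exact ⟨h3, h5⟩
      · rintro ⟨h3, h4⟩
        rw [← hfac, Finset.mem_filter] at h3
        exact ⟨h3.1, h4, h3.2⟩
    rw [← h2]
    exact h1
  · intro Z hZ hZne hZe
    have := conn_of_charts hd (cxOf H) hch hconn Z (by rw [hfac]; exact hZ) hZne hZe
    rw [this, hfac]

end Pool.Agent.Helper490_Sph
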